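import Pool.Agent.E8helper40.OR.Alg

/-!
# Künneth components, the algebra of correspondences modulo homological equivalence
-/

set_option autoImplicit false
set_option linter.unusedSectionVars false

open CategoryTheory AlgebraicGeometry
open scoped ComplexConjugate

namespace Pool.Agent.E8helper40.OR

open Pool.Agent.H914 Pool.Agent.H914.VarClass Pool.Agent.H914.VarClass.Obj Pool.Agent.W492.BB
  Pool.Agent.W539.DI Pool.Agent.R941.OH

variable {k : Type} [Field k] {𝒱 : VarClass k} {C : TheoryData.{0, 0, 0} 𝒱 ℚ}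
  {H : WeilTheoryData.{0, 0, 0} C ℂ}
  [hC : Pool.Agent.TH133.IsChowProj C] [hH : Pool.Agent.TH133.IsWeilProj H]
  {X Y Z : 𝒱.Obj} (T : HodgeTheory H) {n : ℕ}

/-! ### Homogeneous components -/

/-- The homogeneous components of a correspondence and of its action. -/
theorem exists_comp (hY : Y.dim = n) (Γ : C.A (X.prod Y)) : ∃ G : ℤ → C.A (X.prod Y),
    (∀ e, C.Deg (X.dim + e) (G e)) ∧ ∀ (e : ℤ) (m l : ℕ), (l : ℤ) = m + 2 * e →
      ∀ (p q : ℤ) (x : H.A X), p + q = m → x ∈ T.hd X (p, q) →
        dg (T.coh Y hY) l (H.act (H.cl Γ) x) = H.act (H.cl (G e)) x := by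
  refine chow_ind (P := fun Γ => ∃ G : ℤ → C.A (X.prod Y),
    (∀ e, C.Deg (X.dim + e) (G e)) ∧ ∀ (e : ℤ) (m l : ℕ), (l : ℤ) = m + 2 * e →
      ∀ (p q : ℤ) (x : H.A X), p + q = m → x ∈ T.hd X (p, q) →
        dg (T.coh Y hY) l (H.act (H.cl Γ) x) = H.act (H.cl (G e)) x) ?_ ?_ ?_ Γ
  · refine ⟨fun _ => 0, fun e => Submodule.zero_mem _, fun e m l _ p q x _ _ => ?_⟩
    rw [Pool.Agent.TH133.actH_zero]
    exact map_zero (dg (T.coh Y hY) l)
  · rintro Γ Δ ⟨G, hG1, hG2⟩ ⟨D, hD1, hD2⟩
    refine ⟨fun e => G e + D e, fun e => Submodule.add_mem _ (hG1 e) (hD1 e),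
      fun e m l hl p q x hpq hx => ?_⟩
    show dg (T.coh Y hY) l (H.act (H.cl (Γ + Δ)) x) = H.act (H.cl (G e + D e)) x
    have e1 : H.act (H.cl (Γ + Δ)) x = H.act (H.cl Γ) x + H.act (H.cl Δ) x := by
      rw [map_add, H.act_add]
    have e2 : H.act (H.cl (G e + D e)) x = H.act (H.cl (G e)) x + H.act (H.cl (D e)) x := by
      rw [map_add, H.act_add]
    rw [e1, e2, ← hG2 e m l hl p q x hpq hx, ← hD2 e m l hl p q x hpq hx]
    exact map_add (dg (T.coh Y hY) l) _ _
  · intro i Γ hΓ
    classical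
    refine ⟨fun e => if X.dim + e = i then Γ else 0, fun e => ?_, fun e m l hl p q x hpq hx => ?_⟩
    · show (if X.dim + e = i then Γ else 0) ∈ _
      split_ifs with h
      · rw [h]; exact hΓ
      · exact Submodule.zero_mem _
    · show _ = H.act (H.cl (if X.dim + e = i then Γ else 0)) x
      have h := act_hd T (e := i - X.dim) (Γ := Γ) (by rwa [add_sub_cancel]) hx
      have h1 := dg_of (T.coh Y hY) h l
      rw [h1]
      by_cases h2 : X.dim + e = i
      · rw [if_pos h2, if_pos (by omega)]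
      · rw [if_neg h2, if_neg (by omega)]
        exact (Pool.Agent.TH133.actH_zero H x).symm

/-- Correspondences respect the parity of the degrees. -/
theorem comp_odd (hY : Y.dim = n) (Γ : C.A (X.prod Y)) {m l : ℕ} (hml : (m + l) % 2 = 1)
    {p q : ℤ} {x : H.A X} (hpq : p + q = m) (hx : x ∈ T.hd X (p, q)) :
    dg (T.coh Y hY) l (H.act (H.cl Γ) x) = 0 := by
  refine chow_ind (P := fun Γ => dg (T.coh Y hY) l (H.act (H.cl Γ) x) = 0) ?_ ?_ ?_ Γ
  · show dg (T.coh Y hY) l (H.act (H.cl (0 : C.A (X.prod Y))) x) = 0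
    rw [Pool.Agent.TH133.actH_zero]
    exact map_zero (dg (T.coh Y hY) l)
  · intro Γ Δ h1 h2
    show dg (T.coh Y hY) l (H.act (H.cl (Γ + Δ)) x) = 0
    rw [map_add, H.act_add]
    refine (map_add (dg (T.coh Y hY) l) _ _).trans ?_
    rw [h1, h2]
    exact add_zero _
  · intro i Γ hΓ
    have h := act_hd T (e := i - X.dim) (Γ := Γ) (by rwa [add_sub_cancel]) hx
    have h1 := dg_of (T.coh Y hY) h l
    rw [h1, if_neg (by omega)]

/-! ### The Künneth components are algebraic -/

section kunneth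

variable (hX : X.dim = n)

theorem sum_dg_low (i : ℕ) {p q : ℤ} {x : H.A X} (hx : x ∈ T.hd X (p, q)) (hp : 0 ≤ p + q) :
    (∑ j ∈ Finset.range i, dg (T.coh X hX) j) x = if p + q < i then x else 0 := by
  rw [LinearMap.sum_apply]
  have h1 : ∀ j ∈ Finset.range i, dg (T.coh X hX) j x = if p + q = j then x else 0 :=
    fun j _ => dg_of (T.coh X hX) hx j
  rw [Finset.sum_congr rfl h1]
  obtain ⟨m, hm⟩ : ∃ m : ℕ, p + q = m := ⟨(p + q).toNat, by omega⟩
  split_ifs with h
  · rw [Finset.sum_eq_single m]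
    · rw [if_pos hm]
    · intro j _ hj
      rw [if_neg (by omega)]
    · intro h2
      rw [Finset.mem_range] at h2
      omega
  · refine Finset.sum_eq_zero fun j hj => ?_
    rw [Finset.mem_range] at hj
    rw [if_neg (by omega)]

theorem sum_dg_high (i : ℕ) (hi : i ≤ n) {p q : ℤ} {x : H.A X} (hx : x ∈ T.hd X (p, q))
    (hp : p + q ≤ 2 * n) :
    (∑ j ∈ Finset.range i, dg (T.coh X hX) (2 * n - j)) x = if 2 * n - i < p + q then x else 0 := by
  rw [LinearMap.sum_apply]
  have h1 : ∀ j ∈ Finset.range i, dg (T.coh X hX) (2 * n - j) x =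
      if p + q = (2 * n - j : ℕ) then x else 0 := fun j _ => dg_of (T.coh X hX) hx _
  rw [Finset.sum_congr rfl h1]
  split_ifs with h
  · obtain ⟨m, hm⟩ : ∃ m : ℕ, p + q = 2 * n - m := ⟨(2 * n - (p + q)).toNat, by omega⟩
    rw [Finset.sum_eq_single m]
    · rw [if_pos (by omega)]
    · intro j hj hjm
      rw [Finset.mem_range] at hj
      rw [if_neg (by omega)]
    · intro h2
      rw [Finset.mem_range] at h2
      omega
  · refine Finset.sum_eq_zero fun j hj => ?_
    rw [Finset.mem_range] at hj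
    rw [if_neg (by omega)]

theorem alg_om (m : ℕ) : IsAlgD H (m : ℤ) (LinearMap.mulLeft ℂ (H.cl (T.hyp X) ^ m)) := by
  have h := (IsAlgD.mul (H := H) (T.hyp_deg X)).pow m
  rw [mul_one] at h
  rwa [LinearMap.pow_mulLeft] at h

theorem alg_dg_aux (hB : LefschetzType T X) : ∀ i : ℕ, i ≤ n →
    IsAlgD H 0 (X := X) (Y := X) (dg (T.coh X hX) i) ∧
      IsAlgD H 0 (X := X) (Y := X) (dg (T.coh X hX) (2 * n - i)) := by
  intro i
  induction i using Nat.strong_induction_on with
  | _ i ih =>
    intro hi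
    obtain ⟨θ, hθ, hθ'⟩ := hB (n - i) (by omega)
    have hθD : IsAlgD H (-((n - i : ℕ) : ℤ)) (H.actL (H.cl θ)) :=
      ⟨θ, by rw [← sub_eq_add_neg]; exact hθ, fun a => rfl⟩
    -- `θ` inverts the Lefschetz operator
    have hinv : ∀ (p q : ℤ) (x : H.A X), p + q = i → x ∈ T.hd X (p, q) →
        H.act (H.cl θ) (H.cl (T.hyp X) ^ (n - i) * x) = x := by
      intro p q x hpq hx
      refine hθ' x ?_
      have h := T.hd_le X p q hx
      have e : p + q = (X.dim : ℤ) - ((n - i : ℕ) : ℤ) := by omega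
      rwa [e] at h
    have hlow : IsAlgD H 0 (X := X) (Y := X) (∑ j ∈ Finset.range i, dg (T.coh X hX) j) :=
      IsAlgD.sum _ fun j hj => (ih j (Finset.mem_range.1 hj) (by
        rw [Finset.mem_range] at hj; omega)).1
    have hhigh : IsAlgD H 0 (X := X) (Y := X)
        (∑ j ∈ Finset.range i, dg (T.coh X hX) (2 * n - j)) :=
      IsAlgD.sum _ fun j hj => (ih j (Finset.mem_range.1 hj) (by
        rw [Finset.mem_range] at hj; omega)).2
    have hL := alg_om T (X := X) (n - i)
    have hone : IsAlgD H 0 (1 : Module.End ℂ (H.A X)) := IsAlgD.one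
    have key : IsAlgD H 0 (X := X) (Y := X) (dg (T.coh X hX) i) := by
      have h1 := hθD.comp ((hone.sub hhigh).comp (hL.comp (hone.sub hlow)))
      have e : (0 : ℤ) + ((n - i : ℕ) : ℤ) + 0 + -((n - i : ℕ) : ℤ) = 0 := by ring
      rw [e] at h1
      convert h1 using 1
      refine ext_hd T fun p q x hx => ?_
      have h0 := dg_of (T.coh X hX) hx i
      rw [h0]
      simp only [LinearMap.comp_apply, LinearMap.sub_apply, Module.End.one_apply,
        LinearMap.mulLeft_apply]
      by_cases hr : p < 0 ∨ q < 0 ∨ (n : ℤ) < p ∨ (n : ℤ) < q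
      · have hx0 : x = 0 := zero_of (T.coh X hX) hr hx
        rw [hx0]
        simp
      · have hlo := sum_dg_low T hX i hx (by omega)
        rw [hlo]
        rcases lt_trichotomy (p + q) i with h | h | h
        · rw [if_neg (by omega), if_pos h]
          simp
        · rw [if_pos h, if_neg (by omega), sub_zero]
          have hy := KRing.pow_mul_mem (T.coh X hX) (T.coh X hX).ω_mem (n - i) hx
          have hy' : H.cl (T.hyp X) ^ (n - i) * x ∈
            T.hd X (p + ((n - i : ℕ) : ℤ), q + ((n - i : ℕ) : ℤ)) := hy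
          rw [sum_dg_high T hX i hi hy' (by omega), if_neg (by omega), sub_zero]
          exact (hinv p q x h hx).symm
        · rw [if_neg (by omega), if_neg (by omega), sub_zero]
          have hy := KRing.pow_mul_mem (T.coh X hX) (T.coh X hX).ω_mem (n - i) hx
          have hy' : H.cl (T.hyp X) ^ (n - i) * x ∈
            T.hd X (p + ((n - i : ℕ) : ℤ), q + ((n - i : ℕ) : ℤ)) := hy
          by_cases h2 : p + ((n - i : ℕ) : ℤ) ≤ n ∧ q + ((n - i : ℕ) : ℤ) ≤ n
          · rw [sum_dg_high T hX i hi hy' (by omega), if_pos (by omega), sub_self, map_zero]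
          · have hy0 : H.cl (T.hyp X) ^ (n - i) * x = 0 :=
              zero_of (T.coh X hX) (by omega) hy
            rw [hy0]
            simp
    refine ⟨key, ?_⟩
    have h1 := hL.comp (key.comp hθD)
    have e : -((n - i : ℕ) : ℤ) + 0 + ((n - i : ℕ) : ℤ) = 0 := by ring
    rw [e] at h1
    convert h1 using 1
    refine ext_hd T fun p q y hy => ?_
    have h0 := dg_of (T.coh X hX) hy (2 * n - i)
    rw [h0]
    simp only [LinearMap.comp_apply, LinearMap.mulLeft_apply, TheoryData.actL_apply]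
    by_cases h : p + q = (2 * n - i : ℕ)
    · rw [if_pos h]
      obtain ⟨x, hx, hxy⟩ := T.hl_surj X (p - ((n - i : ℕ) : ℤ)) (q - ((n - i : ℕ) : ℤ)) (n - i)
        (by omega) y (by simpa using hy)
      rw [← hxy, hinv _ _ x (by omega) hx]
      have h2 := dg_of (T.coh X hX) hx i
      rw [h2, if_pos (by omega)]
    · rw [if_neg h]
      have h2 := act_hd T (e := -((n - i : ℕ) : ℤ)) (Γ := θ)
        (by rw [← sub_eq_add_neg]; exact hθ) hy
      have h3 := dg_of (T.coh X hX) h2 i
      rw [h3, if_neg (by omega), mul_zero]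

theorem alg_dg (hB : LefschetzType T X) (i : ℕ) :
    IsAlgD H 0 (X := X) (Y := X) (dg (T.coh X hX) i) := by
  by_cases h : i ≤ n
  · exact (alg_dg_aux T hX hB i h).1
  · by_cases h2 : i ≤ 2 * n
    · have := (alg_dg_aux T hX hB (2 * n - i) (by omega)).2
      rwa [show 2 * n - (2 * n - i) = i by omega] at this
    · have e : dg (T.coh X hX) i = (0 : Module.End ℂ (H.A X)) := by
        refine ext_hd T fun p q x hx => ?_
        have h3 := dg_of (T.coh X hX) hx i
        rw [h3]
        by_cases hr : p < 0 ∨ q < 0 ∨ (n : ℤ) < p ∨ (n : ℤ) < q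
        · have hx0 : x = 0 := zero_of (T.coh X hX) hr hx
          rw [hx0]
          simp
        · rw [if_neg (by omega)]
          rfl
      rw [e]
      exact IsAlgD.zero 0

theorem alg_kap (hB : LefschetzType T X) (m : ℕ) :
    IsAlg H (X := X) (Y := X) (kap (T.coh X hX) m) := by
  by_cases hm : m ≤ n
  · obtain ⟨θ, hθ, hθ'⟩ := hB m (by omega)
    have h1 : IsAlg H (H.actL (H.cl θ)) := ⟨θ, fun a => rfl⟩
    have h2 := (alg_dg T hX hB (n - m)).alg.comp (h1.comp (alg_dg T hX hB (n + m)).alg)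
    convert h2 using 1
    refine ext_hd T fun p q y hy => ?_
    simp only [LinearMap.comp_apply, TheoryData.actL_apply]
    have h0 := dg_of (T.coh X hX) hy (n + m)
    by_cases h : p + q = (n + m : ℕ)
    · rw [h0, if_pos h]
      obtain ⟨x, hx, hxy⟩ := T.hl_surj X (p - m) (q - m) m (by push_cast at h; omega) y
        (by simpa using hy)
      have h3 := kap_of (T.coh X hX) (k := m) (p := p - m) (q := q - m)
        (by push_cast at h; omega) hx
      have h4 := hθ' x (by
        have h := T.hd_le X _ _ hx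
        have e : p - m + (q - m) = (X.dim : ℤ) - (m : ℤ) := by push_cast at *; omega
        rwa [e] at h)
      have h5 := dg_of (T.coh X hX) hx (n - m)
      rw [← hxy]
      refine h3.trans ?_
      rw [h4, h5, if_pos (by push_cast [Nat.cast_sub hm] at *; omega)]
    · rw [h0, if_neg h]
      have h3 := congrArg (fun g : Module.End ℂ (T.coh X hX).R => g y)
        (kap_spec (T.coh X hX) hm).2.1
      simp only [Module.End.mul_apply] at h3
      rw [h0, if_neg h] at h3
      rw [← h3]
      refine (map_zero (kap (T.coh X hX) m)).trans ?_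
      rw [H.act_map_zero]
      exact (map_zero (dg (T.coh X hX) (n - m))).symm
  · have e : kap (T.coh X hX) m = (0 : Module.End ℂ (H.A X)) := by
      unfold kap
      rw [dif_neg hm]
    rw [e]
    exact IsAlg.zero

end kunneth

end Pool.Agent.E8helper40.OR
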