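import Pool.Agent.E8helper40.OR.EX

/-!
# The action on the cohomology of a derived equivalent variety
-/

set_option autoImplicit false
set_option linter.unusedSectionVars false

open CategoryTheory AlgebraicGeometry
open scoped ComplexConjugate

namespace Pool.Agent.E8helper40.OR

open Pool.Agent.H914 Pool.Agent.H914.VarClass Pool.Agent.H914.VarClass.Obj Pool.Agent.W492.BB
  Pool.Agent.W539.DI Pool.Agent.R941.OH

/-- Semisimple rings are von Neumann regular. -/
theorem regular {R : Type*} [Ring R] [IsSemisimpleRing R] (u : R) : ∃ z, u * z * u = u := by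
  obtain ⟨J, hJ⟩ := exists_isCompl (Submodule.span R {u})
  have h1 : (1 : R) ∈ Submodule.span R {u} ⊔ J := by
    rw [hJ.sup_eq_top]; trivial
  obtain ⟨e, he, f, hf, hef⟩ := Submodule.mem_sup.1 h1
  obtain ⟨z, rfl⟩ := Submodule.mem_span_singleton.1 he
  refine ⟨z, ?_⟩
  have h2 : u * f ∈ J := J.smul_mem u hf
  have h3 : u * f ∈ Submodule.span R {u} := by
    have : u * f = u - u * (z • u) := by
      rw [eq_sub_iff_add_eq, ← mul_add, add_comm, hef, mul_one]
    rw [this]
    exact Submodule.sub_mem _ (Submodule.mem_span_singleton_self u)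
      (Submodule.smul_mem _ u (Submodule.smul_mem _ z (Submodule.mem_span_singleton_self u)))
  have h5 : u * f = 0 := by
    have : u * f ∈ Submodule.span R {u} ⊓ J := ⟨h3, h2⟩
    rw [hJ.inf_eq_bot] at this
    exact (Submodule.mem_bot R).1 this
  rw [smul_eq_mul] at hef
  calc u * z * u = u * (z * u) + u * f := by rw [h5, add_zero, mul_assoc]
    _ = u := by rw [← mul_add, hef, mul_one]

variable {k : Type} [Field k] {𝒱 : VarClass k} {C : TheoryData.{0, 0, 0} 𝒱 ℚ}
  {H : WeilTheoryData.{0, 0, 0} C ℂ}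
  [hC : Pool.Agent.TH133.IsChowProj C] [hH : Pool.Agent.TH133.IsWeilProj H]
  {X Y Z : 𝒱.Obj} {T : HodgeTheory H} {n : ℕ} {hX : X.dim = n} {hY : Y.dim = n}
  {v : C.A (X.prod Y)} {w : C.A (Y.prod X)}

theorem w_v (hK : MukaiKernel T X Y hX hY v w) (a : H.A X) :
    H.act (H.cl w) (H.act (H.cl v) a) = a := by
  rw [← Pool.Agent.TH133.actH_comp, hK.left, Pool.Agent.TH133.actH_dg]

theorem v_w (hK : MukaiKernel T X Y hX hY v w) (b : H.A Y) :
    H.act (H.cl v) (H.act (H.cl w) b) = b := by
  rw [← Pool.Agent.TH133.actH_comp, hK.right, Pool.Agent.TH133.actH_dg]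

/-- The isomorphism of the cohomology spaces. -/
noncomputable def phi (hK : MukaiKernel T X Y hX hY v w) : H.A X ≃ₗ[ℂ] H.A Y :=
  LinearEquiv.ofLinearMap (H.actL (H.cl v)) (H.actL (H.cl w)) (LinearMap.ext (v_w hK))
    (LinearMap.ext (w_v hK))

theorem phi_apply (hK : MukaiKernel T X Y hX hY v w) (a : H.A X) :
    phi hK a = H.act (H.cl v) a := rfl

theorem phi_symm (hK : MukaiKernel T X Y hX hY v w) (b : H.A Y) :
    (phi hK).symm b = H.act (H.cl w) b := rfl

theorem alg_phi (hK : MukaiKernel T X Y hX hY v w) :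
    IsAlg H (phi hK : H.A X →ₗ[ℂ] H.A Y) := ⟨v, fun _ => rfl⟩

theorem alg_psi (hK : MukaiKernel T X Y hX hY v w) :
    IsAlg H ((phi hK).symm : H.A Y →ₗ[ℂ] H.A X) := ⟨w, fun _ => rfl⟩

/-- The cohomological shape of the equivalence. -/
noncomputable def fm (hK : MukaiKernel T X Y hX hY v w) : FM (T.coh X hX) (T.coh Y hY) where
  φ := phi hK
  real := fun x => (act_bar T v x).symm
  hodge := fun p q => by
    have h1 := (alg_phi hK).typeOp T (hX := hX) (hY := hY)
    have h2 := (alg_psi hK).typeOp T (hX := hY) (hY := hX)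
    apply le_antisymm
    · rintro _ ⟨x, hx, rfl⟩
      exact typeOp_mem h1 (p := p) (q := q) hx
    · intro y hy
      refine ⟨(phi hK).symm y, typeOp_mem h2 (p := p) (q := q) hy, ?_⟩
      exact (phi hK).apply_symm_apply y
  isom := hK.isometry

/-- The action on the cohomology of `Y`. -/
noncomputable def rY (hK : MukaiKernel T X Y hX hY v w) : E H X →+* Module.End ℂ (H.A Y) where
  toFun := fun e => (phi hK : H.A X →ₗ[ℂ] H.A Y) ∘ₗ ρ0 H X e ∘ₗ ((phi hK).symm : H.A Y →ₗ[ℂ] H.A X)
  map_one' := by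
    ext y
    simp
  map_mul' := fun a b => by
    ext y
    simp
  map_zero' := by
    ext y
    simp
  map_add' := fun a b => by
    ext y
    simp

theorem rY_apply (hK : MukaiKernel T X Y hX hY v w) (e : E H X) (y : H.A Y) :
    rY hK e y = phi hK (ρ0 H X e ((phi hK).symm y)) := rfl

theorem rY_inj (hK : MukaiKernel T X Y hX hY v w) : Function.Injective (rY hK) := by
  intro a b h
  apply ρ0_inj
  ext x
  have h3 := congrArg (fun g : Module.End ℂ (H.A Y) => g (phi hK x)) h
  simp only [rY_apply, LinearEquiv.symm_apply_apply] at h3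
  exact (phi hK).injective h3

theorem rY_alg (hK : MukaiKernel T X Y hX hY v w) (e : E H X) :
    IsAlg H (X := Y) (Y := Y) (rY hK e) :=
  (alg_phi hK).comp ((ρ0_alg e).comp (alg_psi hK))

theorem exists_EY (hK : MukaiKernel T X Y hX hY v w) {b : Module.End ℂ (H.A Y)}
    (hb : IsAlg H (X := Y) (Y := Y) b) : ∃ e : E H X, rY hK e = b := by
  obtain ⟨e, he⟩ := exists_E ((alg_psi hK).comp (hb.comp (alg_phi hK)))
  refine ⟨e, ?_⟩
  ext y
  rw [rY_apply, he]
  simp

/-! ### The Künneth components of `Y` are algebraic -/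

theorem alg_dgY (hK : MukaiKernel T X Y hX hY v w) (hB : LefschetzType T X) (m : ℕ) :
    IsAlgD H 0 (X := Y) (Y := Y) (dg (T.coh Y hY) m) := by
  classical
  obtain ⟨V, hV1, hV2⟩ := exists_comp T (X := X) (Y := Y) hY v
  obtain ⟨W, hW1, hW2⟩ := exists_comp T (X := Y) (Y := X) hX w
  let τ : ℕ → Module.End ℂ (H.A Y) := fun j => if (m + j) % 2 = 0 then
    H.actL (H.cl (V (((m : ℤ) - j) / 2))) ∘ₗ (dg (T.coh X hX) j : Module.End ℂ (H.A X)) ∘ₗ
      H.actL (H.cl (W (((j : ℤ) - m) / 2))) else 0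
  have hτ : ∀ j, IsAlgD H 0 (X := Y) (Y := Y) (τ j) := by
    intro j
    show IsAlgD H 0 (X := Y) (Y := Y) (if (m + j) % 2 = 0 then _ else 0)
    split_ifs with h
    · have h1 : IsAlgD H (((m : ℤ) - j) / 2) (H.actL (H.cl (V (((m : ℤ) - j) / 2)))) :=
        ⟨_, hV1 _, fun _ => rfl⟩
      have h2 : IsAlgD H (((j : ℤ) - m) / 2) (H.actL (H.cl (W (((j : ℤ) - m) / 2)))) :=
        ⟨_, hW1 _, fun _ => rfl⟩
      have h3 := h1.comp ((alg_dg T hX hB j).comp h2)
      have e : ((j : ℤ) - m) / 2 + 0 + ((m : ℤ) - j) / 2 = 0 := by omega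
      rwa [e] at h3
    · exact IsAlgD.zero 0
  have hsum : IsAlgD H 0 (X := Y) (Y := Y) (∑ j ∈ Finset.range (2 * n + 1), τ j) :=
    IsAlgD.sum _ fun j _ => hτ j
  convert hsum using 1
  refine ext_hd T fun p q y hy => ?_
  rw [LinearMap.sum_apply]
  have h0 := dg_of (T.coh Y hY) hy m
  by_cases hpq : p + q = m
  · -- the component of degree `m`
    have hterm : ∀ j : ℕ, τ j y = dg (T.coh Y hY) m (H.act (H.cl v)
        (dg (T.coh X hX) j (H.act (H.cl w) y))) := by
      intro j
      by_cases hj : (m + j) % 2 = 0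
      · have e1 : τ j y = H.act (H.cl (V (((m : ℤ) - j) / 2))) (dg (T.coh X hX) j
            (H.act (H.cl (W (((j : ℤ) - m) / 2))) y)) := by
          show (if (m + j) % 2 = 0 then _ else 0 : Module.End ℂ (H.A Y)) y = _
          rw [if_pos hj]
          rfl
        have e2 := hW2 (((j : ℤ) - m) / 2) m j (by omega) p q y hpq hy
        have hmem := act_hd T (hW1 (((j : ℤ) - m) / 2)) hy
        have e3 := dg_of (T.coh X hX) hmem j
        rw [if_pos (by omega)] at e3
        rw [e1, e3]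
        have e4 := hV2 (((m : ℤ) - j) / 2) j m (by omega) _ _ _ (by omega) hmem
        rw [← e4, e2]
      · have e1 : τ j y = 0 := by
          show (if (m + j) % 2 = 0 then _ else 0 : Module.End ℂ (H.A Y)) y = _
          rw [if_neg hj]
          rfl
        rw [e1]
        have e2 := comp_odd T hX w (m := m) (l := j) (by omega) hpq hy
        rw [e2]
        have e3 : H.act (H.cl v) (0 : H.A X) = 0 := H.act_map_zero _
        exact ((congrArg (dg (T.coh Y hY) m) e3).trans (map_zero (dg (T.coh Y hY) m))).symm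
    rw [Finset.sum_congr rfl fun j _ => hterm j]
    have h1 := congrArg (fun g : Module.End ℂ (T.coh X hX).R => g (H.act (H.cl w) y))
      (dg_sum (T.coh X hX))
    simp only [LinearMap.sum_apply, Module.End.one_apply] at h1
    have h2 : ∑ j ∈ Finset.range (2 * n + 1), dg (T.coh Y hY) m (H.act (H.cl v)
        (dg (T.coh X hX) j (H.act (H.cl w) y))) = dg (T.coh Y hY) m (H.actL (H.cl v)
        (∑ j ∈ Finset.range (2 * n + 1), dg (T.coh X hX) j (H.act (H.cl w) y))) := by
      rw [map_sum]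
      exact (map_sum (dg (T.coh Y hY) m) _ _).symm
    rw [h2]
    refine congrArg (dg (T.coh Y hY) m) ?_
    rw [show (∑ j ∈ Finset.range (2 * n + 1), dg (T.coh X hX) j (H.act (H.cl w) y) : H.A X) =
      H.act (H.cl w) y from h1]
    exact (v_w hK y).symm
  · rw [h0, if_neg hpq]
    symm
    refine Finset.sum_eq_zero fun j _ => ?_
    by_cases hj : (m + j) % 2 = 0
    · have e1 : τ j y = H.act (H.cl (V (((m : ℤ) - j) / 2))) (dg (T.coh X hX) j
          (H.act (H.cl (W (((j : ℤ) - m) / 2))) y)) := by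
        show (if (m + j) % 2 = 0 then _ else 0 : Module.End ℂ (H.A Y)) y = _
        rw [if_pos hj]
        rfl
      have hmem := act_hd T (hW1 (((j : ℤ) - m) / 2)) hy
      have e3 := dg_of (T.coh X hX) hmem j
      rw [if_neg (by omega)] at e3
      rw [e1, e3]
      exact H.act_map_zero _
    · show (if (m + j) % 2 = 0 then _ else 0 : Module.End ℂ (H.A Y)) y = _
      rw [if_neg hj]
      rfl

/-- The inverses of the Lefschetz isomorphisms of `Y` are algebraic. -/
theorem alg_kapY [IsSemisimpleRing (E H X)] (hK : MukaiKernel T X Y hX hY v w)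
    (hB : LefschetzType T X) (m : ℕ) :
    ∃ e : E H X, rY hK e = (kap (T.coh Y hY) m : Module.End ℂ (H.A Y)) := by
  by_cases hm : m ≤ n
  · obtain ⟨k1, k2, k3, k4⟩ := kap_spec (T.coh Y hY) hm
    obtain ⟨a, ha⟩ := exists_EY hK (alg_dgY hK hB (n - m)).alg
    obtain ⟨b, hb⟩ := exists_EY hK (alg_dgY hK hB (n + m)).alg
    obtain ⟨o, ho⟩ := exists_EY hK (b := LinearMap.mulLeft ℂ (H.cl (T.hyp Y)) ^ m)
      (((IsAlgD.mul (H := H) (T.hyp_deg Y)).pow m).alg)
    obtain ⟨z, hz⟩ := regular (o * a)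
    refine ⟨a * z * b, ?_⟩
    rw [map_mul, map_mul, ha, hb]
    have hz' := congrArg (rY hK) hz
    rw [map_mul, map_mul, map_mul, ho, ha] at hz'
    set D : Module.End ℂ (H.A Y) := dg (T.coh Y hY) (n - m) with hD
    set D' : Module.End ℂ (H.A Y) := dg (T.coh Y hY) (n + m) with hD'
    set O : Module.End ℂ (H.A Y) := LinearMap.mulLeft ℂ (H.cl (T.hyp Y)) ^ m with hO
    set K : Module.End ℂ (H.A Y) := kap (T.coh Y hY) m with hKk
    set R := rY hK z
    have k1' : D * K = K := k1
    have k2' : K * D' = K := k2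
    have k3' : K * (O * D) = D := k3
    have k4' : O * K = D' := k4
    calc D * R * D' = K * (O * D) * R * (O * K) := by rw [k3', k4']
      _ = K * (O * D) * R * (O * (D * K)) := by rw [k1']
      _ = K * (O * D * R * (O * D)) * K := by simp only [mul_assoc]
      _ = K * (O * D) * K := by rw [hz']
      _ = K := by rw [k3', k1']
  · refine ⟨0, ?_⟩
    rw [map_zero]
    unfold kap
    rw [dif_neg hm]

/-- The algebra acts on the cohomology of `Y`. -/
theorem exists_actY [IsSemisimpleRing (E H X)] (hK : MukaiKernel T X Y hX hY v w)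
    (hB : LefschetzType T X) : ∃ B : Act (E H X) (T.coh Y hY), B.ρ = rY hK := by
  obtain ⟨L, hL⟩ := (lef (T.coh Y hY)).exists_lift (rY hK) (rY_inj hK)
    (fun m => exists_EY hK (alg_dgY hK hB m).alg)
    (exists_EY hK (by
      have h := alg_om T (X := Y) 1
      rw [pow_one] at h
      exact h.alg))
    (fun m => alg_kapY hK hB m)
  obtain ⟨c, hc⟩ := exists_EY hK (b := mu (T.coh Y hY) (T.coh Y hY).c)
    (IsAlgD.mul (H := H) (T.c₁_deg Y)).alg
  refine ⟨{ ρ := rY hK, inj := rY_inj hK, typ_mem := fun a => ?_, L := L, hL := hL,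
            c := c, hc := hc, adj := fun a => ?_ }, rfl⟩
  · exact (rY_alg hK a).typeOp T (hX := hY) (hY := hY)
  · obtain ⟨b, hb, h⟩ := alg_adj T hY (rY_alg hK a)
    obtain ⟨e, rfl⟩ := exists_EY hK hb
    exact ⟨e, h⟩

end Pool.Agent.E8helper40.OR
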