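import Pool.Agent.E8helper40.OR.Defs

/-!
# Operators on cohomology induced by algebraic correspondences
-/

set_option autoImplicit false
set_option linter.unusedSectionVars false

open CategoryTheory AlgebraicGeometry
open scoped ComplexConjugate

namespace Pool.Agent.E8helper40.OR

open Pool.Agent.H914 Pool.Agent.H914.VarClass Pool.Agent.H914.VarClass.Obj Pool.Agent.W492.BB
  Pool.Agent.W539.DI Pool.Agent.R941.OH

variable {k : Type} [Field k] {𝒱 : VarClass k} {C : TheoryData.{0, 0, 0} 𝒱 ℚ}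
  {H : WeilTheoryData.{0, 0, 0} C ℂ}

section ind

variable [hC : IsChow C]

theorem chow_ind {Z : 𝒱.Obj} {P : C.A Z → Prop} (h0 : P 0)
    (hadd : ∀ x y, P x → P y → P (x + y)) (hh : ∀ (i : ℤ) (x : C.A Z), x ∈ C.gr Z i → P x)
    (x : C.A Z) : P x := by
  have hx : x ∈ ⨆ i, C.gr Z i := by
    rw [(C.isInternal Z).submodule_iSup_eq_top]; trivial
  exact Submodule.iSup_induction (C.gr Z) (motive := P) hx hh h0 hadd

end ind

/-- The operator is induced by an algebraic correspondence (of mixed degree). -/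
def IsAlg {X Y : 𝒱.Obj} (H : WeilTheoryData.{0, 0, 0} C ℂ) (b : H.A X →ₗ[ℂ] H.A Y) : Prop :=
  ∃ Γ : C.A (X.prod Y), ∀ a, b a = H.act (H.cl Γ) a

/-- The operator is induced by an algebraic correspondence of degree `e`. -/
def IsAlgD {X Y : 𝒱.Obj} (H : WeilTheoryData.{0, 0, 0} C ℂ) (e : ℤ) (b : H.A X →ₗ[ℂ] H.A Y) :
    Prop :=
  ∃ Γ : C.A (X.prod Y), C.Deg (X.dim + e) Γ ∧ ∀ a, b a = H.act (H.cl Γ) a

section alg

variable [hC : Pool.Agent.TH133.IsChowProj C] [hH : Pool.Agent.TH133.IsWeilProj H]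
  {X Y Z : 𝒱.Obj}

include hC hH

omit hC hH in
theorem IsAlgD.alg {e : ℤ} {b : H.A X →ₗ[ℂ] H.A Y} (h : IsAlgD H e b) : IsAlg H b := by
  obtain ⟨Γ, _, h⟩ := h
  exact ⟨Γ, h⟩

theorem IsAlg.comp {g : H.A Y →ₗ[ℂ] H.A Z} {f : H.A X →ₗ[ℂ] H.A Y} (hg : IsAlg H g)
    (hf : IsAlg H f) : IsAlg H (g ∘ₗ f) := by
  obtain ⟨Γ, hΓ⟩ := hg
  obtain ⟨Δ, hΔ⟩ := hf
  refine ⟨C.comp Δ Γ, fun a => ?_⟩
  rw [Pool.Agent.TH133.actH_comp, LinearMap.comp_apply, hΔ, hΓ]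

theorem IsAlgD.comp {e e' : ℤ} {g : H.A Y →ₗ[ℂ] H.A Z} {f : H.A X →ₗ[ℂ] H.A Y}
    (hg : IsAlgD H e g) (hf : IsAlgD H e' f) : IsAlgD H (e' + e) (g ∘ₗ f) := by
  obtain ⟨Γ, hΓ, hΓ'⟩ := hg
  obtain ⟨Δ, hΔ, hΔ'⟩ := hf
  refine ⟨C.comp Δ Γ, Pool.Agent.TH133.comp_mem C hΔ hΓ, fun a => ?_⟩
  rw [Pool.Agent.TH133.actH_comp, LinearMap.comp_apply, hΔ', hΓ']

theorem IsAlg.add {f g : H.A X →ₗ[ℂ] H.A Y} (hf : IsAlg H f) (hg : IsAlg H g) :
    IsAlg H (f + g) := by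
  obtain ⟨Γ, hΓ⟩ := hg
  obtain ⟨Δ, hΔ⟩ := hf
  refine ⟨Δ + Γ, fun a => ?_⟩
  rw [map_add, H.act_add, LinearMap.add_apply, hΔ, hΓ]

theorem IsAlgD.add {e : ℤ} {f g : H.A X →ₗ[ℂ] H.A Y} (hf : IsAlgD H e f) (hg : IsAlgD H e g) :
    IsAlgD H e (f + g) := by
  obtain ⟨Γ, h1, hΓ⟩ := hg
  obtain ⟨Δ, h2, hΔ⟩ := hf
  refine ⟨Δ + Γ, Submodule.add_mem _ h2 h1, fun a => ?_⟩
  rw [map_add, H.act_add, LinearMap.add_apply, hΔ, hΓ]

theorem IsAlg.zero : IsAlg H (0 : H.A X →ₗ[ℂ] H.A Y) :=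
  ⟨0, fun a => by rw [Pool.Agent.TH133.actH_zero]; rfl⟩

theorem IsAlgD.zero (e : ℤ) : IsAlgD H e (0 : H.A X →ₗ[ℂ] H.A Y) :=
  ⟨0, Submodule.zero_mem _, fun a => by rw [Pool.Agent.TH133.actH_zero]; rfl⟩

theorem IsAlg.neg {f : H.A X →ₗ[ℂ] H.A Y} (hf : IsAlg H f) : IsAlg H (-f) := by
  obtain ⟨Δ, hΔ⟩ := hf
  refine ⟨-Δ, fun a => ?_⟩
  have h := Pool.Agent.TH133.actH_zero H (X := X) (Y := Y) a
  rw [← add_neg_cancel Δ, map_add, H.act_add, ← hΔ] at h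
  rw [LinearMap.neg_apply]
  exact (eq_neg_of_add_eq_zero_right h).symm

theorem IsAlgD.neg {e : ℤ} {f : H.A X →ₗ[ℂ] H.A Y} (hf : IsAlgD H e f) : IsAlgD H e (-f) := by
  obtain ⟨Δ, h1, hΔ⟩ := hf
  refine ⟨-Δ, Submodule.neg_mem _ h1, fun a => ?_⟩
  have h := Pool.Agent.TH133.actH_zero H (X := X) (Y := Y) a
  rw [← add_neg_cancel Δ, map_add, H.act_add, ← hΔ] at h
  rw [LinearMap.neg_apply]
  exact (eq_neg_of_add_eq_zero_right h).symm

theorem IsAlg.sub {f g : H.A X →ₗ[ℂ] H.A Y} (hf : IsAlg H f) (hg : IsAlg H g) :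
    IsAlg H (f - g) := by
  rw [sub_eq_add_neg]
  exact hf.add hg.neg

theorem IsAlgD.sub {e : ℤ} {f g : H.A X →ₗ[ℂ] H.A Y} (hf : IsAlgD H e f) (hg : IsAlgD H e g) :
    IsAlgD H e (f - g) := by
  rw [sub_eq_add_neg]
  exact hf.add hg.neg

theorem IsAlg.sum {ι : Type*} (s : Finset ι) {f : ι → (H.A X →ₗ[ℂ] H.A Y)}
    (hf : ∀ i ∈ s, IsAlg H (f i)) : IsAlg H (∑ i ∈ s, f i) := by
  classical
  induction s using Finset.induction_on with
  | empty => simpa using IsAlg.zero (H := H)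
  | insert a s ha ih =>
    rw [Finset.sum_insert ha]
    exact (hf a (Finset.mem_insert_self _ _)).add
      (ih fun i hi => hf i (Finset.mem_insert_of_mem hi))

theorem IsAlgD.sum {ι : Type*} {e : ℤ} (s : Finset ι) {f : ι → (H.A X →ₗ[ℂ] H.A Y)}
    (hf : ∀ i ∈ s, IsAlgD H e (f i)) : IsAlgD H e (∑ i ∈ s, f i) := by
  classical
  induction s using Finset.induction_on with
  | empty => simpa using IsAlgD.zero (H := H) e
  | insert a s ha ih =>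
    rw [Finset.sum_insert ha]
    exact (hf a (Finset.mem_insert_self _ _)).add
      (ih fun i hi => hf i (Finset.mem_insert_of_mem hi))

theorem IsAlgD.one : IsAlgD H 0 (1 : Module.End ℂ (H.A X)) := by
  refine ⟨Pool.Agent.W550.Corr.dg C X, ?_, fun a => ?_⟩
  · have := Pool.Agent.TH133.dg_mem C X
    rwa [add_zero]
  · rw [Pool.Agent.TH133.actH_dg]
    rfl

theorem cl_mulCorr (z : C.A X) (a : H.A X) : H.act (H.cl (C.mulCorr z)) a = H.cl z * a := by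
  have h : H.cl (C.mulCorr z) = H.mulCorr (H.cl z) := by
    unfold TheoryData.mulCorr
    exact H.cl_push _ _
  rw [h, H.act_mulCorr]

theorem IsAlgD.mul {e : ℤ} {z : C.A X} (hz : C.Deg e z) :
    IsAlgD H e (LinearMap.mulLeft ℂ (H.cl z)) := by
  refine ⟨C.mulCorr z, ?_, fun a => ?_⟩
  · have h := C.push_mem (Obj.lift (𝟙 X) (𝟙 X)) hz
    have e1 : e + 1 * (((X.prod X).dim : ℤ) - (X.dim : ℤ)) = X.dim + e := by
      rw [dim_prod]; push_cast; ring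
    rwa [e1] at h
  · rw [cl_mulCorr]
    rfl

theorem IsAlgD.pow {e : ℤ} {f : Module.End ℂ (H.A X)} (hf : IsAlgD H e f) (m : ℕ) :
    IsAlgD H (m * e) (f ^ m) := by
  induction m with
  | zero =>
    rw [pow_zero]
    simpa using IsAlgD.one (H := H) (X := X)
  | succ m ih =>
    rw [pow_succ]
    have h := ih.comp hf
    have e1 : (e + (m : ℤ) * e) = ((m + 1 : ℕ) : ℤ) * e := by push_cast; ring
    rw [e1] at h
    exact h

/-! ### Types and complex conjugation -/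

variable (T : HodgeTheory H)

theorem act_hd {e : ℤ} {Γ : C.A (X.prod Y)} (hΓ : Γ ∈ C.gr (X.prod Y) (X.dim + e)) {p q : ℤ}
    {a : H.A X} (ha : a ∈ T.hd X (p, q)) : H.act (H.cl Γ) a ∈ T.hd Y (p + e, q + e) := by
  rw [TheoryData.act_apply]
  have h := T.push_mem (snd X Y) _ _ _ (SetLike.mul_mem_graded (T.cl_mem _ _ Γ hΓ)
    (T.pull_mem (fst X Y) p q a ha))
  have e1 : (X.dim : ℤ) + e + p + ((Y.dim : ℤ) - ((X.prod Y).dim : ℤ)) = p + e := by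
    rw [dim_prod]; push_cast; ring
  have e2 : (X.dim : ℤ) + e + q + ((Y.dim : ℤ) - ((X.prod Y).dim : ℤ)) = q + e := by
    rw [dim_prod]; push_cast; ring
  have h' : H.push (snd X Y) (H.cl Γ * H.pull (fst X Y) a) ∈
    T.hd Y ((X.dim : ℤ) + e + p + ((Y.dim : ℤ) - ((X.prod Y).dim : ℤ)),
      (X.dim : ℤ) + e + q + ((Y.dim : ℤ) - ((X.prod Y).dim : ℤ))) := h
  rwa [e1, e2] at h'

theorem act_bar (Γ : C.A (X.prod Y)) (a : H.A X) :
    T.bar Y (H.act (H.cl Γ) a) = H.act (H.cl Γ) (T.bar X a) := by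
  rw [TheoryData.act_apply, TheoryData.act_apply, T.push_bar, T.bar_mul, T.cl_bar, T.pull_bar]

variable {n : ℕ} {hX : X.dim = n} {hY : Y.dim = n}

omit hC in
theorem ind_hd {P : H.A X → Prop} (h0 : P 0) (hadd : ∀ x y, P x → P y → P (x + y))
    (hh : ∀ (p q : ℤ) (x : H.A X), x ∈ T.hd X (p, q) → P x) (x : H.A X) : P x :=
  KRing.ind (T.coh X rfl) h0 hadd hh x

omit hC in
/-- Linear maps which agree on the classes of type `(p, q)` are equal. -/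
theorem ext_hd {V : Type*} [AddCommGroup V] [Module ℂ V] {f g : H.A X →ₗ[ℂ] V}
    (h : ∀ (p q : ℤ) (x : H.A X), x ∈ T.hd X (p, q) → f x = g x) : f = g :=
  hom_ext (T.coh X rfl) h

theorem IsAlg.typeOp {b : H.A X →ₗ[ℂ] H.A Y} (hb : IsAlg H b) :
    TypeOp (X := T.coh X hX) (Y := T.coh Y hY) b := by
  obtain ⟨Γ, hΓ⟩ := hb
  intro p q x hx
  have e1 : b x = H.act (H.cl Γ) x := hΓ x
  rw [e1]
  clear hΓ e1
  refine chow_ind (P := fun Γ => H.act (H.cl Γ) x ∈ typ (T.coh Y hY) p q) ?_ ?_ ?_ Γ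
  · show H.act (H.cl (0 : C.A (X.prod Y))) x ∈ _
    rw [Pool.Agent.TH133.actH_zero]
    exact Submodule.zero_mem _
  · intro Γ Δ h1 h2
    show H.act (H.cl (Γ + Δ)) x ∈ _
    rw [map_add, H.act_add]
    exact Submodule.add_mem _ h1 h2
  · intro i Γ hΓ
    have h := act_hd T (e := i - X.dim) (Γ := Γ) (by rwa [add_sub_cancel]) hx
    exact mem_typ' (T.coh Y hY) (by ring) h

theorem IsAlg.bar {b : H.A X →ₗ[ℂ] H.A Y} (hb : IsAlg H b) (a : H.A X) :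
    T.bar Y (b a) = b (T.bar X a) := by
  obtain ⟨Γ, hΓ⟩ := hb
  rw [hΓ, hΓ, act_bar T]

end alg

end Pool.Agent.E8helper40.OR
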