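import Mathlib

/-!
# Graded rings with finite support: nilpotence from degree zero
-/

set_option autoImplicit false

open scoped Pointwise

namespace Pool.Agent.E8helper40.OR

/-- products over intervals -/
def P {R : Type*} [Ring R] (x : ℕ → R) (i j : ℕ) : R := ((List.Ico i j).map x).prod

section P

variable {R : Type*} [Ring R] (x : ℕ → R)

theorem P_self (i : ℕ) : P x i i = 1 := by simp [P]

theorem P_mul {i j l : ℕ} (h1 : i ≤ j) (h2 : j ≤ l) : P x i j * P x j l = P x i l := by
  unfold P
  rw [← List.Ico.append_consecutive h1 h2, List.map_append, List.prod_append]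

theorem P_succ {i j : ℕ} (h : i ≤ j) : P x i (j + 1) = P x i j * x j := by
  rw [← P_mul x h (Nat.le_succ j)]
  congr 1
  simp [P, List.Ico.succ_singleton]

/-- products over consecutive intervals -/
theorem P_blocks (t : ℕ → ℕ) (ht : Monotone t) (m : ℕ) :
    P x (t 0) (t m) = ((List.range m).map (fun l => P x (t l) (t (l + 1)))).prod := by
  induction m with
  | zero => simp [P_self]
  | succ m ih =>
    rw [List.range_succ, List.map_append, List.prod_append, ← ih, List.map_singleton,
      List.prod_singleton, P_mul x (ht (Nat.zero_le m)) (ht (Nat.le_succ m))]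

end P

/-- Let `R` be a graded ring with finite support and `J` a homogeneous two-sided ideal such that
the products of `N` elements of `J` of degree zero vanish. Then the elements of `J` are
nilpotent. -/
theorem graded_nil {R : Type*} [Ring R] [Algebra ℚ R] (G : ℤ → Submodule ℚ R)
    (hG : ∀ (i j : ℤ) (a b : R), a ∈ G i → b ∈ G j → a * b ∈ G (i + j)) (h1 : (1 : R) ∈ G 0)
    (n : ℕ) (hout : ∀ (i : ℤ) (a : R), i < -n ∨ n < i → a ∈ G i → a = 0) (J : Submodule ℚ R)
    (hr : ∀ a b : R, a ∈ J → a * b ∈ J)
    (hJ : J ≤ ⨆ i, J ⊓ G i) (N : ℕ)
    (hN : ∀ l : List R, l.length = N → (∀ a ∈ l, a ∈ J ∧ a ∈ G 0) → l.prod = 0) (a : R)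
    (ha : a ∈ J) : IsNilpotent a := by
  classical
  set S : Set R := {b | b ∈ J ∧ ∃ i, b ∈ G i} with hS
  have hspan : J ≤ Submodule.span ℚ S := by
    refine hJ.trans (iSup_le fun i b hb => Submodule.subset_span ⟨hb.1, i, hb.2⟩)
  set M : ℕ := (2 * n + 1) * N with hM
  refine ⟨M, ?_⟩
  have h2 : a ^ M ∈ Submodule.span ℚ (S ^ M) := by
    rw [← Submodule.span_pow]
    exact Submodule.pow_mem_pow _ (hspan ha) M
  have h3 : S ^ M ⊆ {0} := by
    intro z hz
    rw [Set.mem_pow] at hz
    obtain ⟨f, rfl⟩ := hz
    rw [Set.mem_singleton_iff]
    -- the word, as a function on the natural numbers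
    set x : ℕ → R := fun i => if h : i < M then (f ⟨i, h⟩ : R) else 1 with hx
    have hxJ : ∀ i, i < M → x i ∈ J := by
      intro i hi
      rw [hx]
      simp only [dif_pos hi]
      exact (f ⟨i, hi⟩).2.1
    have hxd : ∀ i, ∃ d : ℤ, x i ∈ G d := by
      intro i
      by_cases hi : i < M
      · obtain ⟨d, hd⟩ := (f ⟨i, hi⟩).2.2
        refine ⟨d, ?_⟩
        rw [hx]
        simp only [dif_pos hi]
        exact hd
      · refine ⟨0, ?_⟩
        rw [hx]
        simp only [dif_neg hi]
        exact h1
    choose d hd using hxd
    have hword : (List.ofFn fun i => (f i : R)).prod = P x 0 M := by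
      unfold P
      congr 1
      apply List.ext_getElem
      · simp
      · intro i h4 h5
        have h6 : i < M := by simpa using h4
        have h7 : (List.Ico 0 M)[i]'(by simpa using h6) = i := by
          simp [List.Ico, List.getElem_range']
        rw [List.getElem_ofFn, List.getElem_map, h7, hx]
        simp only [dif_pos h6]
    rw [hword]
    set s : ℕ → ℤ := fun i => ∑ t ∈ Finset.range i, d t with hs
    have hPG : ∀ i j, i ≤ j → P x i j ∈ G (s j - s i) := by
      intro i j hij
      induction j, hij using Nat.le_induction with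
      | base => rw [P_self, sub_self]; exact h1
      | succ j hij ih =>
        rw [P_succ x hij]
        have h4 := hG _ _ _ _ ih (hd j)
        have h5 : s j - s i + d j = s (j + 1) - s i := by
          simp only [hs, Finset.sum_range_succ]
          ring
        rwa [h5] at h4
    have hPJ : ∀ i j, i < j → j ≤ M → P x i j ∈ J := by
      intro i j hij
      induction j, hij using Nat.le_induction with
      | base =>
        intro hj
        rw [P_succ x le_rfl, P_self, one_mul]
        exact hxJ i (by omega)
      | succ j hij ih =>
        intro hj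
        rw [P_succ x (by omega)]
        exact hr _ _ (ih (by omega))
    by_contra hne
    have hbound : ∀ i, i ≤ M → -n ≤ s i ∧ s i ≤ n := by
      intro i hi
      by_contra hcon
      apply hne
      have h4 := hPG 0 i (Nat.zero_le i)
      have h5 : s 0 = 0 := by simp [hs]
      rw [h5, sub_zero] at h4
      have h6 := hout (s i) _ (by omega) h4
      rw [← P_mul x (Nat.zero_le i) hi, h6, zero_mul]
    obtain ⟨c, -, hc⟩ := Finset.exists_lt_card_fiber_of_mul_lt_card_of_maps_to
      (s := Finset.range (M + 1)) (t := Finset.Icc (-(n : ℤ)) n) (f := s) (n := N)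
      (fun i hi => by
        rw [Finset.mem_range] at hi
        rw [Finset.mem_Icc]
        exact hbound i (by omega))
      (by
        rw [Int.card_Icc, Finset.card_range]
        have : ((n : ℤ) + 1 - -(n : ℤ)).toNat = 2 * n + 1 := by omega
        rw [this]
        omega)
    set I := (Finset.range (M + 1)).filter (fun i => s i = c) with hI
    let ι := I.orderEmbOfFin rfl
    have hcard : N + 1 ≤ I.card := hc
    set t : ℕ → ℕ := fun l => if h : l < I.card then ι ⟨l, h⟩ else M with ht
    have htI : ∀ l, l ≤ N → t l ∈ I := by
      intro l hl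
      rw [ht]
      simp only [dif_pos (show l < I.card by omega)]
      exact Finset.orderEmbOfFin_mem I rfl _
    have htM : ∀ l, t l ≤ M := by
      intro l
      rw [ht]
      simp only
      split_ifs with h
      · have h5 : ι ⟨l, h⟩ ∈ (Finset.range (M + 1)).filter (fun i => s i = c) :=
          Finset.orderEmbOfFin_mem I rfl ⟨l, h⟩
        rw [Finset.mem_filter, Finset.mem_range] at h5
        have h6 := h5.1
        omega
      · exact le_rfl
    have htmono : Monotone t := by
      intro l l' hll
      by_cases h' : l' < I.card
      · have h : l < I.card := by omega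
        rw [ht]
        simp only [dif_pos h, dif_pos h']
        exact ι.monotone (by simpa using hll)
      · have : t l' = M := by rw [ht]; simp only [dif_neg h']
        rw [this]
        exact htM l
    have htlt : ∀ l, l + 1 ≤ N → t l < t (l + 1) := by
      intro l hl
      have h : l < I.card := by omega
      have h' : l + 1 < I.card := by omega
      rw [ht]
      simp only [dif_pos h, dif_pos h']
      exact ι.strictMono (by simp [Fin.lt_def])
    have hblocks : P x (t 0) (t N) = 0 := by
      rw [P_blocks x t htmono]
      refine hN _ (by simp) fun b hb => ?_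
      rw [List.mem_map] at hb
      obtain ⟨l, hl, rfl⟩ := hb
      rw [List.mem_range] at hl
      refine ⟨hPJ _ _ (htlt l (by omega)) (htM _), ?_⟩
      have h4 := hPG (t l) (t (l + 1)) (htmono (Nat.le_succ l))
      have h5 := htI l (by omega)
      have h6 := htI (l + 1) (by omega)
      rw [hI, Finset.mem_filter] at h5 h6
      rw [h5.2, h6.2, sub_self] at h4
      exact h4
    apply hne
    rw [← P_mul x (Nat.zero_le (t 0)) (htM 0), ← P_mul x (htmono (Nat.zero_le N)) (htM N), hblocks]
    simp
  have h4 := Submodule.span_mono (R := ℚ) h3 h2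
  rw [Submodule.span_zero_singleton, Submodule.mem_bot] at h4
  exact h4

end Pool.Agent.E8helper40.OR
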