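import Pool.Agent.E8helper40.OR.Hom
import Pool.Agent.E8helper40.OR.Nil

/-!
# From homological motives to Chow motives
-/

set_option autoImplicit false
set_option linter.unusedSectionVars false

open CategoryTheory AlgebraicGeometry

namespace Pool.Agent.E8helper40.OR

open Pool.Agent.H914 Pool.Agent.H914.VarClass Pool.Agent.H914.VarClass.Obj Pool.Agent.W492.BB
  Pool.Agent.W550.Corr Pool.Agent.TH133

variable {k : Type} [Field k] {𝒱 : VarClass k} {C : TheoryData.{0, 0, 0} 𝒱 ℚ}
  {H : WeilTheoryData.{0, 0, 0} C ℂ}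
  [hC : IsChowProj C] [hH : IsWeilProj H] {X Y : 𝒱.Obj}

/-- The grading of the ring of correspondences. -/
noncomputable def Gc (C : TheoryData.{0, 0, 0} 𝒱 ℚ) [IsChowProj C] (X : 𝒱.Obj) (e : ℤ) :
    Submodule ℚ (Cor C X) where
  carrier := {a | (a : C.A (X.prod X)) ∈ C.gr (X.prod X) (X.dim + e)}
  add_mem' ha hb := Submodule.add_mem (C.gr (X.prod X) (X.dim + e)) ha hb
  zero_mem' := Submodule.zero_mem (C.gr (X.prod X) (X.dim + e))
  smul_mem' q _ ha := Submodule.smul_mem (C.gr (X.prod X) (X.dim + e)) q ha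

theorem mem_Gc {e : ℤ} {a : Cor C X} :
    a ∈ Gc C X e ↔ (a : C.A (X.prod X)) ∈ C.gr (X.prod X) (X.dim + e) := Iff.rfl

omit hC hH in
theorem cl_smul' (q : ℚ) (z : C.A X) : H.cl (q • z) = (q : ℂ) • H.cl z := by
  have h := map_ratCast_smul (H.cl (X := X)) ℚ ℂ q z
  rwa [Rat.cast_id] at h

/-- The ideal of the homologically trivial self-correspondences. -/
noncomputable def Jc (H : WeilTheoryData.{0, 0, 0} C ℂ) (X : 𝒱.Obj) : Submodule ℚ (Cor C X) where
  carrier := {a | H.cl (X := X.prod X) a = 0}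
  add_mem' {a b} ha hb := by
    have h : H.cl (X := X.prod X) ((a : C.A (X.prod X)) + (b : C.A (X.prod X))) =
      H.cl (X := X.prod X) a + H.cl (X := X.prod X) b := map_add _ _ _
    rw [Set.mem_ofPred_eq] at ha hb ⊢
    exact h.trans (by rw [ha, hb, add_zero])
  zero_mem' := map_zero (H.cl (X := X.prod X))
  smul_mem' q a ha := by
    rw [Set.mem_ofPred_eq] at ha ⊢
    exact (cl_smul' (H := H) q (a : C.A (X.prod X))).trans (by rw [ha, smul_zero])

theorem mem_Jc {a : Cor C X} : a ∈ Jc H X ↔ H.cl (X := X.prod X) a = 0 := Iff.rfl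

theorem cl_comp_zero_left {Z : 𝒱.Obj} {a : C.A (X.prod Y)} (ha : H.cl a = 0) (b : C.A (Y.prod Z)) :
    H.cl (C.comp a b) = 0 := by
  rw [cl_comp, ha, zero_comp]

theorem cl_comp_zero_right {Z : 𝒱.Obj} (a : C.A (X.prod Y)) {b : C.A (Y.prod Z)}
    (hb : H.cl b = 0) : H.cl (C.comp a b) = 0 := by
  rw [cl_comp, hb, comp_zero]

/-- The ideal is homogeneous. -/
theorem Jc_homog (X : 𝒱.Obj) : Jc H X ≤ ⨆ e, Jc H X ⊓ Gc C X e := by
  intro a ha
  have htop : (a : C.A (X.prod X)) ∈ ⨆ i, C.gr (X.prod X) i := by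
    rw [(C.isInternal (X.prod X)).submodule_iSup_eq_top]; trivial
  obtain ⟨f, hf, hsum⟩ := (Submodule.mem_iSup_iff_exists_finsupp (C.gr (X.prod X))
    (a : C.A (X.prod X))).1 htop
  have hind := (H.isInternal (X.prod X)).submodule_iSupIndep
  have hinj : Function.Injective (fun i : ℤ => 2 * i) := fun i j h => by
    have : 2 * i = 2 * j := h
    omega
  have hind2 := hind.comp hinj
  rw [iSupIndep_iff_finsetSum_eq_zero_imp_eq_zero] at hind2
  have h0 : ∀ i ∈ f.support, H.cl (f i) = 0 := by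
    refine hind2 f.support (fun i => H.cl (f i)) (fun i _ => H.cl_mem (hf i)) ?_
    rw [← map_sum]
    have h1 : (∑ i ∈ f.support, f i) = (a : C.A (X.prod X)) := hsum
    rw [h1]
    exact ha
  have h1 : (∑ i ∈ f.support, (f i : Cor C X)) = a := hsum
  rw [← h1]
  refine Submodule.sum_mem _ fun i hi => ?_
  refine Submodule.mem_iSup_of_mem (i - X.dim) ⟨h0 i hi, ?_⟩
  show (f i : C.A (X.prod X)) ∈ C.gr (X.prod X) (X.dim + (i - X.dim))
  rw [add_sub_cancel]
  exact hf i

theorem compList_eq (X : 𝒱.Obj) (l : List (Cor C X)) :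
    (compList C X l : Cor C X) = l.reverse.prod := by
  induction l with
  | nil => rfl
  | cons a l ih =>
    rw [List.reverse_cons, List.prod_append, List.prod_singleton, ← ih]
    rfl

/-- All homologically trivial self-correspondences of `X`, of any degree, are nilpotent. -/
theorem nil_X {N : ℕ} (hN : NilpotentOfIndex H X N) (a : Cor C X) (ha : a ∈ Jc H X) :
    IsNilpotent a := by
  refine graded_nil (Gc C X) ?_ ?_ X.dim ?_ (Jc H X) ?_ (Jc_homog X) N ?_ a ha
  · intro i j a b ha hb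
    have h := comp_mem C (X := X) (Y := X) (Z := X) (e := j) (e' := i) hb ha
    rw [add_comm j i] at h
    exact h
  · show dg C X ∈ C.gr (X.prod X) (X.dim + 0)
    rw [add_zero]
    exact dg_mem C X
  · intro i a hi ha
    have ha' : (a : C.A (X.prod X)) ∈ C.gr (X.prod X) (X.dim + i) := ha
    rcases hi with hi | hi
    · rw [C.gr_neg (X.prod X) (X.dim + i) (by omega)] at ha'
      exact (Submodule.mem_bot ℚ).1 ha'
    · refine hC.gr_top (X.prod X) (X.dim + i) a ha' ?_
      rw [dim_prod]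
      push_cast
      omega
  · intro a b ha
    exact cl_comp_zero_right (H := H) (X := X) (Y := X) (Z := X) b ha
  · intro l hl h
    have h1 := hN l.reverse ((List.length_reverse (as := l)).trans hl) fun γ hγ => by
      obtain ⟨h2, h3⟩ := h γ (List.mem_reverse.1 hγ)
      have h3' : (γ : C.A (X.prod X)) ∈ C.gr (X.prod X) (X.dim + 0) := h3
      rw [add_zero] at h3'
      exact ⟨h3', h2⟩
    have h4 := compList_eq X l.reverse
    rw [List.reverse_reverse] at h4
    rw [← h4]
    exact h1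

theorem cj_mul (v : C.A (X.prod Y)) (w : C.A (Y.prod X)) (h2 : C.comp w v = dg C Y)
    (a b : C.A (Y.prod Y)) : C.comp (C.comp v (C.comp b a)) w =
      C.comp (C.comp (C.comp v b) w) (C.comp (C.comp v a) w) := by
  calc C.comp (C.comp v (C.comp b a)) w
      = C.comp (C.comp (C.comp v b) a) w := by rw [← comp_assoc C v b a]
    _ = C.comp (C.comp v b) (C.comp a w) := by rw [comp_assoc C (C.comp v b) a w]
    _ = C.comp (C.comp v b) (C.comp (dg C Y) (C.comp a w)) := by rw [dg_comp]
    _ = C.comp (C.comp v b) (C.comp (C.comp w v) (C.comp a w)) := by rw [h2]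
    _ = C.comp (C.comp v b) (C.comp w (C.comp v (C.comp a w))) := by
        rw [comp_assoc C w v (C.comp a w)]
    _ = C.comp (C.comp (C.comp v b) w) (C.comp v (C.comp a w)) := by
        rw [comp_assoc C (C.comp v b) w (C.comp v (C.comp a w))]
    _ = C.comp (C.comp (C.comp v b) w) (C.comp (C.comp v a) w) := by rw [comp_assoc C v a w]

theorem cj_cj (v : C.A (X.prod Y)) (w : C.A (Y.prod X)) (h2 : C.comp w v = dg C Y)
    (a : C.A (Y.prod Y)) : C.comp (C.comp w (C.comp (C.comp v a) w)) v = a := by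
  calc C.comp (C.comp w (C.comp (C.comp v a) w)) v
      = C.comp (C.comp (C.comp w (C.comp v a)) w) v := by rw [← comp_assoc C w (C.comp v a) w]
    _ = C.comp (C.comp w (C.comp v a)) (C.comp w v) := by
        rw [comp_assoc C (C.comp w (C.comp v a)) w v]
    _ = C.comp w (C.comp v a) := by rw [h2, comp_dg]
    _ = C.comp (C.comp w v) a := by rw [comp_assoc C w v a]
    _ = a := by rw [h2, dg_comp]

/-- Conjugation with mutually inverse correspondences. -/
noncomputable def cj (v : C.A (X.prod Y)) (w : C.A (Y.prod X)) (h1 : C.comp v w = dg C X)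
    (h2 : C.comp w v = dg C Y) : Cor C Y →+* Cor C X where
  toFun d := C.comp (X := X) (Y := Y) (Z := X) (C.comp (X := X) (Y := Y) (Z := Y) v d) w
  map_one' := by
    show C.comp (C.comp v (dg C Y)) w = dg C X
    rw [comp_dg, h1]
  map_mul' a b := cj_mul v w h2 (a : C.A (Y.prod Y)) (b : C.A (Y.prod Y))
  map_zero' := by
    have h : C.comp (C.comp v (0 : C.A (Y.prod Y))) w = 0 := by rw [comp_zero, zero_comp]
    exact h
  map_add' a b := by
    have h : ∀ a b : C.A (Y.prod Y), C.comp (C.comp v (a + b)) w =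
        C.comp (C.comp v a) w + C.comp (C.comp v b) w := fun a b => by rw [comp_add, add_comp]
    exact h a b

theorem cj_inj (v : C.A (X.prod Y)) (w : C.A (Y.prod X)) (h1 : C.comp v w = dg C X)
    (h2 : C.comp w v = dg C Y) : Function.Injective (cj v w h1 h2) := by
  refine Function.LeftInverse.injective (g := cj w v h2 h1) fun a => ?_
  exact cj_cj v w h2 (a : C.A (Y.prod Y))

/-- Homologically trivial self-correspondences of `Y` are nilpotent. -/
theorem nil_Y {v : C.A (X.prod Y)} {w : C.A (Y.prod X)} (h1 : C.comp v w = dg C X)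
    (h2 : C.comp w v = dg C Y) {N : ℕ} (hN : NilpotentOfIndex H X N) (a : Cor C Y)
    (ha : a ∈ Jc H Y) : IsNilpotent a := by
  rw [← IsNilpotent.map_iff (cj_inj v w h1 h2)]
  refine nil_X hN _ ?_
  exact cl_comp_zero_left (H := H) (cl_comp_zero_right (H := H) v ha) w

/-- A self-correspondence of degree zero acting as the identity on the cohomology is invertible. -/
theorem exists_inv (hnil : ∀ a : Cor C X, a ∈ Jc H X → IsNilpotent a) {a : C.A (X.prod X)}
    (ha : C.Deg X.dim a) (h : ∀ x : H.A X, H.act (H.cl a) x = x) :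
    ∃ b : C.A (X.prod X), C.Deg X.dim b ∧ C.comp a b = dg C X ∧ C.comp b a = dg C X := by
  let a0 : Cor C X := a
  let r : Cor C X := 1 - a0
  have hr : r ∈ Jc H X := by
    show H.cl (dg C X - a) = 0
    refine eq_zero_of_act H _ fun x => ?_
    have h1 := H.act_sub (H.cl (dg C X)) (H.cl a) x
    rw [map_sub, h1, actH_dg, h, sub_self]
  have ha0 : a0 ∈ cor0 C X := ha
  have hr0 : r ∈ cor0 C X := Subalgebra.sub_mem _ (Subalgebra.one_mem _) ha0
  have hrn : IsNilpotent (⟨r, hr0⟩ : cor0 C X) := by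
    rw [← IsNilpotent.map_iff (f := (cor0 C X).val) Subtype.val_injective]
    exact hnil r hr
  have hu := hrn.isUnit_one_sub
  obtain ⟨u, hu⟩ := hu
  have hua : ((u : cor0 C X) : Cor C X) = a0 := by
    rw [hu]
    show (1 : Cor C X) - (1 - a0) = a0
    exact sub_sub_cancel _ _
  refine ⟨(((u⁻¹ : (cor0 C X)ˣ) : cor0 C X) : Cor C X), ((u⁻¹ : (cor0 C X)ˣ) : cor0 C X).2, ?_, ?_⟩
  · have h1 := congrArg (fun z : cor0 C X => (z : Cor C X)) u.inv_mul
    have h2 : (((u⁻¹ : (cor0 C X)ˣ) : cor0 C X) : Cor C X) * ((u : cor0 C X) : Cor C X) = 1 := h1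
    rw [hua] at h2
    exact h2
  · have h1 := congrArg (fun z : cor0 C X => (z : Cor C X)) u.mul_inv
    have h2 : ((u : cor0 C X) : Cor C X) * (((u⁻¹ : (cor0 C X)ˣ) : cor0 C X) : Cor C X) = 1 := h1
    rw [hua] at h2
    exact h2

/-- Correspondences of degree zero, mutually inverse on the cohomology, can be replaced by mutually
inverse ones if the homologically trivial self-correspondences are nilpotent. -/
theorem chow_iso {n : ℕ} (hX : X.dim = n) (hY : Y.dim = n)
    (hnX : ∀ a : Cor C X, a ∈ Jc H X → IsNilpotent a)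
    (hnY : ∀ a : Cor C Y, a ∈ Jc H Y → IsNilpotent a) {f : C.A (X.prod Y)} {g : C.A (Y.prod X)}
    (hf : C.Deg n f) (hg : C.Deg n g) (h1 : ∀ a : H.A X, H.act (H.cl g) (H.act (H.cl f) a) = a)
    (h2 : ∀ b : H.A Y, H.act (H.cl f) (H.act (H.cl g) b) = b) :
    ∃ (f : C.A (X.prod Y)) (g : C.A (Y.prod X)), C.Deg n f ∧ C.Deg n g ∧
      C.comp f g = dg C X ∧ C.comp g f = dg C Y := by
  have hf0 : f ∈ C.gr (X.prod Y) (X.dim + 0) := by rw [add_zero, hX]; exact hf
  have hg0 : g ∈ C.gr (Y.prod X) (Y.dim + 0) := by rw [add_zero, hY]; exact hg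
  have ha : C.Deg X.dim (C.comp f g) := by
    have := comp_mem C (X := X) (Y := Y) (Z := X) hf0 hg0
    rwa [add_zero, add_zero] at this
  have hb : C.Deg Y.dim (C.comp g f) := by
    have := comp_mem C (X := Y) (Y := X) (Z := Y) hg0 hf0
    rwa [add_zero, add_zero] at this
  obtain ⟨a', ha'0, ha1, ha2⟩ := exists_inv hnX ha fun x => by rw [actH_comp, h1]
  obtain ⟨b', -, hb1, hb2⟩ := exists_inv hnY hb fun x => by rw [actH_comp, h2]
  have hR : C.comp f (C.comp g a') = dg C X := by rw [← comp_assoc C f g a', ha1]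
  have hL : C.comp (C.comp b' g) f = dg C Y := by rw [comp_assoc C b' g f, hb2]
  have hLR : C.comp b' g = C.comp g a' := by
    calc C.comp b' g = C.comp (C.comp b' g) (dg C X) := by rw [comp_dg]
      _ = C.comp (C.comp b' g) (C.comp f (C.comp g a')) := by rw [hR]
      _ = C.comp (C.comp (C.comp b' g) f) (C.comp g a') := by
          rw [comp_assoc C (C.comp b' g) f]
      _ = C.comp g a' := by rw [hL, dg_comp]
  refine ⟨f, C.comp g a', hf, ?_, hR, by rw [← hLR, hL]⟩
  have ha'1 : a' ∈ C.gr (X.prod X) (X.dim + 0) := by rw [add_zero]; exact ha'0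
  have := comp_mem C (X := Y) (Y := X) (Z := X) hg0 ha'1
  rw [add_zero, add_zero, hY] at this
  exact this

end Pool.Agent.E8helper40.OR
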