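import Pool.Agent.TH133.Base
import Pool.Agent.R941.OH.Main

/-!
# Hodge theory of a Weil cohomology theory; the data of a derived equivalence
-/

set_option autoImplicit false

open CategoryTheory AlgebraicGeometry
open scoped ComplexConjugate

namespace Pool.Agent.E8helper40.OR

open Pool.Agent.H914 Pool.Agent.H914.VarClass Pool.Agent.H914.VarClass.Obj Pool.Agent.W492.BB
  Pool.Agent.W550.Corr Pool.Agent.TH133 Pool.Agent.W539.DI

variable {k : Type} [Field k] {𝒱 : VarClass k} {C : TheoryData.{0, 0, 0} 𝒱 ℚ}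

/-- Hodge theory for a Weil cohomology theory `H` with complex coefficients. For smooth projective
varieties over a subfield `k` of the complex numbers, `H(X)` is the complex cohomology of `X(ℂ)`.

* `hd X (p, q)` is the space of the classes of type `(p, q)`; it is contained in `H^(p+q)(X)`, and
  the cohomology ring is the direct sum of these spaces (`gr`), which is a graded commutative ring;
* `bar` is the complex conjugation;
* pull-backs, push-forwards and the orientation are morphisms of (real) Hodge structures, and the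
  class of a cycle of codimension `i` is real of type `(i, i)`;
* `hyp X` is the class of a hyperplane section of `X` (a divisor class), for which the hard
  Lefschetz theorem and the Hodge-Riemann bilinear relations hold;
* the cycles modulo homological equivalence form a finite dimensional space over the rational
  numbers;
* `c₁ X` is a divisor class, the first Chern class. -/
structure HodgeTheory (H : WeilTheoryData.{0, 0, 0} C ℂ) where
  hd : ∀ X : 𝒱.Obj, ℤ × ℤ → Submodule ℂ (H.A X)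
  [gr : ∀ X, GradedRing (hd X)]
  hd_le : ∀ (X : 𝒱.Obj) (p q : ℤ), hd X (p, q) ≤ H.gr X (p + q)
  van : ∀ (X : 𝒱.Obj) (p q : ℤ), (p < 0 ∨ q < 0) → hd X (p, q) = ⊥
  comm : ∀ (X : 𝒱.Obj) (p q p' q' : ℤ) (x y : H.A X), x ∈ hd X (p, q) → y ∈ hd X (p', q') →
    x * y = ((-1 : ℂ) ^ ((p + q) * (p' + q'))) • (y * x)
  fin : ∀ X : 𝒱.Obj, FiniteDimensional ℂ (H.A X)
  bar : ∀ X : 𝒱.Obj, H.A X →ₛₗ[starRingEnd ℂ] H.A X
  bar_bar : ∀ (X : 𝒱.Obj) (x : H.A X), bar X (bar X x) = x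
  bar_mul : ∀ (X : 𝒱.Obj) (x y : H.A X), bar X (x * y) = bar X x * bar X y
  bar_mem : ∀ (X : 𝒱.Obj) (p q : ℤ) (x : H.A X), x ∈ hd X (p, q) → bar X x ∈ hd X (q, p)
  pull_mem : ∀ {X Y : 𝒱.Obj} (f : X ⟶ Y) (p q : ℤ) (b : H.A Y), b ∈ hd Y (p, q) →
    H.pull f b ∈ hd X (p, q)
  pull_bar : ∀ {X Y : 𝒱.Obj} (f : X ⟶ Y) (b : H.A Y), bar X (H.pull f b) = H.pull f (bar Y b)
  push_mem : ∀ {X Y : 𝒱.Obj} (f : X ⟶ Y) (p q : ℤ) (a : H.A X), a ∈ hd X (p, q) →
    H.push f a ∈ hd Y (p + (Y.dim - X.dim), q + (Y.dim - X.dim))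
  push_bar : ∀ {X Y : 𝒱.Obj} (f : X ⟶ Y) (a : H.A X), bar Y (H.push f a) = H.push f (bar X a)
  tr_van : ∀ (X : 𝒱.Obj) (p q : ℤ) (x : H.A X), x ∈ hd X (p, q) →
    ¬ (p = X.dim ∧ q = X.dim) → H.tr X x = 0
  tr_bar : ∀ (X : 𝒱.Obj) (x : H.A X), H.tr X (bar X x) = conj (H.tr X x)
  cl_mem : ∀ (X : 𝒱.Obj) (i : ℤ) (z : C.A X), C.Deg i z → H.cl z ∈ hd X (i, i)
  cl_bar : ∀ (X : 𝒱.Obj) (z : C.A X), bar X (H.cl z) = H.cl z
  cycles_fin : ∀ X : 𝒱.Obj, ∃ s : Finset (C.A X), ∀ z : C.A X, ∃ q : C.A X → ℚ,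
    H.cl z = H.cl (∑ a ∈ s, q a • a)
  hyp : ∀ X : 𝒱.Obj, C.A X
  hyp_deg : ∀ X : 𝒱.Obj, C.Deg 1 (hyp X)
  hl_inj : ∀ (X : 𝒱.Obj) (p q : ℤ) (m : ℕ), p + q + m = X.dim → ∀ x ∈ hd X (p, q),
    H.cl (hyp X) ^ m * x = 0 → x = 0
  hl_surj : ∀ (X : 𝒱.Obj) (p q : ℤ) (m : ℕ), p + q + m = X.dim → ∀ y ∈ hd X (p + m, q + m),
    ∃ x ∈ hd X (p, q), H.cl (hyp X) ^ m * x = y
  hr : ∀ (X : 𝒱.Obj) (p q : ℤ) (m : ℕ), p + q + m = X.dim → ∀ x ∈ hd X (p, q), x ≠ 0 →
    H.cl (hyp X) ^ (m + 1) * x = 0 →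
    ∃ r : ℝ, 0 < r ∧ Complex.I ^ (p - q) * (-1 : ℂ) ^ ((p + q) * (p + q - 1) / 2) *
      H.tr X (H.cl (hyp X) ^ m * (x * bar X x)) = (r : ℂ)
  c₁ : ∀ X : 𝒱.Obj, C.A X
  c₁_deg : ∀ X : 𝒱.Obj, C.Deg 1 (c₁ X)

attribute [instance] HodgeTheory.gr

variable {H : WeilTheoryData.{0, 0, 0} C ℂ}

theorem one_hd (T : HodgeTheory H) (X : 𝒱.Obj) : (1 : H.A X) ∈ T.hd X (0, 0) :=
  SetLike.GradedOne.one_mem (A := T.hd X)

theorem conn [hH : IsWeilProj H] (T : HodgeTheory H) (X : 𝒱.Obj) : Module.finrank ℂ (T.hd X (0, 0)) = 1 := by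
  refine (finrank_eq_one_iff_of_nonzero' (⟨1, one_hd T X⟩ : T.hd X (0, 0)) ?_).2 ?_
  · intro h
    exact hH.one_ne_zero X (congrArg Subtype.val h)
  · rintro ⟨y, hy⟩
    obtain ⟨c, hc⟩ := hH.gr_zero X y (by simpa using T.hd_le X 0 0 hy)
    exact ⟨c, Subtype.ext hc.symm⟩

theorem pd [hH : IsWeilProj H] (T : HodgeTheory H) (X : 𝒱.Obj) (p q : ℤ) (x : H.A X) (hx : x ∈ T.hd X (p, q))
    (h : ∀ y ∈ T.hd X (X.dim - p, X.dim - q), H.tr X (x * y) = 0) : x = 0 := by
  refine H.nondeg x fun b => ?_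
  induction b using DirectSum.Decomposition.inductionOn (T.hd X) with
  | zero => rw [mul_zero, map_zero]
  | @homogeneous ab y =>
    obtain ⟨a, b⟩ := ab
    by_cases hab : a = X.dim - p ∧ b = X.dim - q
    · obtain ⟨rfl, rfl⟩ := hab
      exact h _ y.2
    · refine T.tr_van X (p + a) (q + b) _ (SetLike.GradedMul.mul_mem hx y.2) ?_
      intro h1
      apply hab
      omega
  | add a b ha hb => rw [mul_add, map_add, ha, hb, add_zero]

/-- The cohomology of a variety of dimension `n` with its Hodge decomposition, the class of a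
hyperplane section and the first Chern class. -/
@[reducible] noncomputable def HodgeTheory.coh (T : HodgeTheory H) [IsWeilProj H] (X : 𝒱.Obj) {n : ℕ}
    (hn : X.dim = n) : KRing n where
  R := H.A X
  ring := H.ring X
  alg := H.algebra X
  fin := T.fin X
  H := T.hd X
  gr := T.gr X
  van := T.van X
  conn := conn T X
  comm := T.comm X
  bar := T.bar X
  bar_bar := T.bar_bar X
  bar_mul := T.bar_mul X
  bar_mem := T.bar_mem X
  tr := H.tr X
  tr_van := fun p q x hx h => T.tr_van X p q x hx (by rwa [hn])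
  tr_bar := T.tr_bar X
  pd := fun p q x hx h => pd T X p q x hx (by rwa [hn])
  ω := H.cl (T.hyp X)
  ω_mem := T.cl_mem X 1 _ (T.hyp_deg X)
  ω_bar := T.cl_bar X _
  hl_inj := fun p q m h => T.hl_inj X p q m (by rw [h, hn])
  hl_surj := fun p q m h => T.hl_surj X p q m (by rw [h, hn])
  hr := fun p q m h => T.hr X p q m (by rw [h, hn])
  c := H.cl (T.c₁ X)
  c_mem := T.cl_mem X 1 _ (T.c₁_deg X)
  c_bar := T.cl_bar X _

/-- The standard conjecture of Lefschetz type for `X`: the inverses of the Lefschetz isomorphisms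
`H^(n-m)(X) → H^(n+m)(X)` are induced by algebraic correspondences. -/
def LefschetzType (T : HodgeTheory H) (X : 𝒱.Obj) : Prop :=
  ∀ m : ℕ, m ≤ X.dim → ∃ θ : C.A (X.prod X), C.Deg (X.dim - m) θ ∧ ∀ a : H.A X,
    H.Deg (X.dim - m) a → H.act (H.cl θ) (H.cl (T.hyp X) ^ m * a) = a

/-- The cohomological properties of a derived equivalence. `v` and `w` are the Mukai vectors
`ch(E) √td(X × Y)` of the kernel of an equivalence `D(X) → D(Y)` and of its inverse (mixed classes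
in the Chow groups with rational coefficients): they are inverse to each other as correspondences,
and the action of `v` on cohomology is an isometry for the Mukai pairings
`∫ exp (c₁ / 2) x^∨ y`. -/
structure MukaiKernel (T : HodgeTheory H) [IsWeilProj H] {n : ℕ} (X Y : 𝒱.Obj) (hX : X.dim = n)
    (hY : Y.dim = n) (v : C.A (X.prod Y)) (w : C.A (Y.prod X)) : Prop where
  left : C.comp v w = dg C X
  right : C.comp w v = dg C Y
  isometry : ∀ a b : H.A X, (T.coh Y hY).mukai (H.act (H.cl v) a) (H.act (H.cl v) b) =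
    (T.coh X hX).mukai a b

/-- `H^j(X)` and `H^j(Y)` are isomorphic by algebraic correspondences of degree zero. -/
def SameMotive (H : WeilTheoryData.{0, 0, 0} C ℂ) (X Y : 𝒱.Obj) (j : ℕ) : Prop :=
  ∃ (α : C.A (X.prod Y)) (β : C.A (Y.prod X)), C.Deg X.dim α ∧ C.Deg Y.dim β ∧
    (∀ a : H.A X, H.Deg j a → H.act (H.cl β) (H.act (H.cl α) a) = a) ∧
    (∀ b : H.A Y, H.Deg j b → H.act (H.cl α) (H.act (H.cl β) b) = b)

end Pool.Agent.E8helper40.OR
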