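import Pool.Agent.E8helper40.OR.ActX

/-!
# The algebra of correspondences modulo homological equivalence
-/

set_option autoImplicit false
set_option linter.unusedSectionVars false

open CategoryTheory AlgebraicGeometry
open scoped ComplexConjugate

namespace Pool.Agent.E8helper40.OR

open Pool.Agent.H914 Pool.Agent.H914.VarClass Pool.Agent.H914.VarClass.Obj Pool.Agent.W492.BB
  Pool.Agent.W539.DI Pool.Agent.R941.OH

variable {k : Type} [Field k] {𝒱 : VarClass k} {C : TheoryData.{0, 0, 0} 𝒱 ℚ}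
  {H : WeilTheoryData.{0, 0, 0} C ℂ}
  [hC : Pool.Agent.TH133.IsChowProj C] [hH : Pool.Agent.TH133.IsWeilProj H]
  {X Y Z : 𝒱.Obj} (T : HodgeTheory H) {n : ℕ}

/-! ### Adjoints -/

section adj

variable (hX : X.dim = n)

theorem alg_tp {b : Module.End ℂ (H.A X)} (hb : IsAlg H (X := X) (Y := X) b) :
    IsAlg H (X := X) (Y := X) (tp (T.coh X hX) b) := by
  obtain ⟨Γ, hΓ⟩ := hb
  refine ⟨Pool.Agent.TH133.tp C Γ, fun y => ?_⟩
  apply Br_inj (T.coh X hX)
  ext x
  rw [Br_apply, Br_apply, tp_spec]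
  have h := Pool.Agent.TH133.tr_act' H (Pool.Agent.TH133.tp C Γ) y x
  rw [Pool.Agent.TH133.tp_tp] at h
  have e : b x = H.act (H.cl Γ) x := hΓ x
  show H.tr X (b x * y) = H.tr X (x * _)
  rw [e, h]

theorem jj_comm_hd {e : ℤ} {Γ : C.A (X.prod X)} (hΓ : Γ ∈ C.gr (X.prod X) (X.dim + e)) {p q : ℤ}
    {x : H.A X} (hx : x ∈ T.hd X (p, q)) :
    (jj (T.coh X hX)) (H.act (H.cl Γ) ((jj (T.coh X hX)) x)) =
      (-1 : ℂ) ^ e • H.act (H.cl Γ) x := by
  have h1 : (jj (T.coh X hX)) x = (-1 : ℂ) ^ ((p + q) / 2) • x := by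
    unfold jj
    exact diag_of (T.coh X hX) _ hx
  have h2 := act_hd T hΓ hx
  have h3 : (jj (T.coh X hX)) (H.act (H.cl Γ) x) =
      (-1 : ℂ) ^ ((p + e + (q + e)) / 2) • H.act (H.cl Γ) x := by
    unfold jj
    exact diag_of (T.coh X hX) _ h2
  have h4 : H.act (H.cl Γ) ((-1 : ℂ) ^ ((p + q) / 2) • x) =
      (-1 : ℂ) ^ ((p + q) / 2) • H.act (H.cl Γ) x := map_smul (H.actL (H.cl Γ)) _ _
  rw [h1, h4]
  refine (map_smul (jj (T.coh X hX)) _ _).trans ?_
  rw [h3, smul_smul]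
  congr 1
  have e1 : (p + e + (q + e)) / 2 = (p + q) / 2 + e := by omega
  rw [e1, zpow_add₀ (by norm_num), ← mul_assoc, neg_one_sq_zpow, one_mul]

theorem alg_jj {b : Module.End ℂ (H.A X)} (hb : IsAlg H (X := X) (Y := X) b) :
    IsAlg H (X := X) (Y := X) (jj (T.coh X hX) * b * jj (T.coh X hX)) := by
  obtain ⟨Γ, hΓ⟩ := hb
  have key : ∃ Δ : C.A (X.prod X), ∀ a : H.A X,
      (jj (T.coh X hX)) (H.act (H.cl Γ) ((jj (T.coh X hX)) a)) = H.act (H.cl Δ) a := by
    clear hΓ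
    refine chow_ind (P := fun Γ => ∃ Δ : C.A (X.prod X), ∀ a : H.A X,
      (jj (T.coh X hX)) (H.act (H.cl Γ) ((jj (T.coh X hX)) a)) = H.act (H.cl Δ) a) ?_ ?_ ?_ Γ
    · refine ⟨0, fun a => ?_⟩
      rw [Pool.Agent.TH133.actH_zero, Pool.Agent.TH133.actH_zero]
      exact map_zero (jj (T.coh X hX))
    · rintro Γ Γ' ⟨Δ, h1⟩ ⟨Δ', h2⟩
      refine ⟨Δ + Δ', fun a => ?_⟩
      rw [map_add H.cl Δ Δ', H.act_add, ← h1, ← h2, map_add H.cl Γ Γ', H.act_add]
      exact map_add (jj (T.coh X hX)) _ _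
    · intro i Γ hΓ
      have hΓ' : Γ ∈ C.gr (X.prod X) (X.dim + (i - X.dim)) := by rwa [add_sub_cancel]
      rcases Int.even_or_odd (i - X.dim) with he | ho
      · refine ⟨Γ, fun a => ?_⟩
        refine ind_hd T (P := fun a => (jj (T.coh X hX)) (H.act (H.cl Γ) ((jj (T.coh X hX)) a)) =
          H.act (H.cl Γ) a) ?_ ?_ ?_ a
        · show (jj (T.coh X hX)) (H.actL (H.cl Γ) ((jj (T.coh X hX)) 0)) = H.actL (H.cl Γ) 0
          have : (jj (T.coh X hX)) (0 : H.A X) = 0 := map_zero (jj (T.coh X hX))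
          rw [this, map_zero]
          exact this
        · intro x y hx hy
          have e1 : (jj (T.coh X hX)) (x + y) = (jj (T.coh X hX)) x + (jj (T.coh X hX)) y :=
            map_add (jj (T.coh X hX)) _ _
          have e2 : ∀ u v : H.A X, H.act (H.cl Γ) (u + v) = H.act (H.cl Γ) u + H.act (H.cl Γ) v :=
            map_add (H.actL (H.cl Γ))
          show (jj (T.coh X hX)) (H.act (H.cl Γ) ((jj (T.coh X hX)) (x + y))) =
            H.act (H.cl Γ) (x + y)
          rw [e1, e2, e2, ← hx, ← hy]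
          exact map_add (jj (T.coh X hX)) _ _
        · intro p q x hx
          show (jj (T.coh X hX)) (H.act (H.cl Γ) ((jj (T.coh X hX)) x)) = H.act (H.cl Γ) x
          rw [jj_comm_hd T hX hΓ' hx, he.neg_one_zpow, one_smul]
      · refine ⟨-Γ, fun a => ?_⟩
        have eneg : ∀ a : H.A X, H.act (H.cl (-Γ)) a = - H.act (H.cl Γ) a := by
          intro a
          have h := Pool.Agent.TH133.actH_zero H (X := X) (Y := X) a
          rw [← add_neg_cancel Γ, map_add, H.act_add] at h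
          exact (eq_neg_of_add_eq_zero_right h)
        rw [eneg]
        refine ind_hd T (P := fun a => (jj (T.coh X hX)) (H.act (H.cl Γ) ((jj (T.coh X hX)) a)) =
          - H.act (H.cl Γ) a) ?_ ?_ ?_ a
        · show (jj (T.coh X hX)) (H.actL (H.cl Γ) ((jj (T.coh X hX)) 0)) = - H.actL (H.cl Γ) 0
          have : (jj (T.coh X hX)) (0 : H.A X) = 0 := map_zero (jj (T.coh X hX))
          rw [this, map_zero, neg_zero]
          exact this
        · intro x y hx hy
          have e1 : (jj (T.coh X hX)) (x + y) = (jj (T.coh X hX)) x + (jj (T.coh X hX)) y :=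
            map_add (jj (T.coh X hX)) _ _
          have e2 : ∀ u v : H.A X, H.act (H.cl Γ) (u + v) = H.act (H.cl Γ) u + H.act (H.cl Γ) v :=
            map_add (H.actL (H.cl Γ))
          show (jj (T.coh X hX)) (H.act (H.cl Γ) ((jj (T.coh X hX)) (x + y))) =
            - H.act (H.cl Γ) (x + y)
          rw [e1, e2, e2, neg_add, ← hx, ← hy]
          exact map_add (jj (T.coh X hX)) _ _
        · intro p q x hx
          show (jj (T.coh X hX)) (H.act (H.cl Γ) ((jj (T.coh X hX)) x)) = - H.act (H.cl Γ) x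
          rw [jj_comm_hd T hX hΓ' hx, ho.neg_one_zpow, neg_one_smul]
  obtain ⟨Δ, hΔ⟩ := key
  refine ⟨Δ, fun a => ?_⟩
  rw [← hΔ]
  exact congrArg (jj (T.coh X hX)) (hΓ _)

theorem alg_adj {a : Module.End ℂ (H.A X)} (ha : IsAlg H (X := X) (Y := X) a) :
    ∃ b : Module.End ℂ (H.A X), IsAlg H (X := X) (Y := X) b ∧
      ∀ x y, F (T.coh X hX) (a x) y = F (T.coh X hX) x (b y) := by
  refine ⟨tp (T.coh X hX) (jj (T.coh X hX) * a * jj (T.coh X hX)),
    alg_tp T hX (alg_jj T hX ha), fun x y => ?_⟩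
  have h1 := dual_conj (X := T.coh X hX) (a := a) (ha.typeOp T (hX := hX) (hY := hX)) x
  have h2 := (alg_tp T hX (alg_jj T hX ha)).bar T y
  unfold F
  rw [h1, ← tp_spec]
  exact congrArg (fun z => (T.coh X hX).tr ((T.coh X hX).dual x * z)) h2.symm

end adj

/-! ### The algebra -/

/-- The self-correspondences of `X` (of mixed degree) modulo homological equivalence. -/
abbrev E (H : WeilTheoryData.{0, 0, 0} C ℂ) [Pool.Agent.TH133.IsWeilProj H] (X : 𝒱.Obj) : Type :=
  Pool.Agent.TH133.Cor C X ⧸ RingHom.ker (Pool.Agent.TH133.actH C X H)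

/-- Its action on cohomology. -/
noncomputable def ρ0 (H : WeilTheoryData.{0, 0, 0} C ℂ) [Pool.Agent.TH133.IsWeilProj H]
    (X : 𝒱.Obj) : E H X →+* Module.End ℂ (H.A X) :=
  RingHom.kerLift (Pool.Agent.TH133.actH C X H)

theorem ρ0_inj : Function.Injective (ρ0 H X) := RingHom.kerLift_injective _

theorem ρ0_alg (e : E H X) : IsAlg H (X := X) (Y := X) (ρ0 H X e) := by
  obtain ⟨Γ, rfl⟩ := Ideal.Quotient.mk_surjective e
  exact ⟨Γ, fun a => rfl⟩

theorem exists_E {b : Module.End ℂ (H.A X)} (hb : IsAlg H (X := X) (Y := X) b) :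
    ∃ e : E H X, ρ0 H X e = b := by
  obtain ⟨Γ, hΓ⟩ := hb
  refine ⟨Ideal.Quotient.mk _ Γ, ?_⟩
  ext a
  exact (hΓ a).symm

include T in
theorem finE : FiniteDimensional ℚ (E H X) := by
  obtain ⟨s, hs⟩ := T.cycles_fin (X.prod X)
  let π : Pool.Agent.TH133.Cor C X →ₗ[ℚ] E H X :=
    (Ideal.Quotient.mkₐ ℚ (RingHom.ker (Pool.Agent.TH133.actH C X H))).toLinearMap
  have key : Submodule.span ℚ ((fun a : C.A (X.prod X) => π a) '' (s : Set (C.A (X.prod X)))) = ⊤ := by
    rw [eq_top_iff]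
    rintro e -
    obtain ⟨Γ, rfl⟩ := Ideal.Quotient.mk_surjective e
    obtain ⟨q, hq⟩ := hs Γ
    have h1 : (Ideal.Quotient.mk (RingHom.ker (Pool.Agent.TH133.actH C X H)) Γ : E H X) =
        π (∑ a ∈ s, q a • a : C.A (X.prod X)) := by
      apply ρ0_inj
      ext a
      show H.act (H.cl (Γ : C.A (X.prod X))) a = H.act (H.cl (∑ a ∈ s, q a • a)) a
      rw [hq]
    have h2 : π (∑ a ∈ s, q a • a : C.A (X.prod X)) = ∑ a ∈ s, q a • π a := by
      have := map_sum π (fun a : C.A (X.prod X) => (q a • a : C.A (X.prod X))) s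
      refine this.trans (Finset.sum_congr rfl fun a _ => ?_)
      exact map_smul π (q a) a
    rw [h1, h2]
    exact Submodule.sum_mem _ fun a ha => Submodule.smul_mem _ _
      (Submodule.subset_span ⟨a, ha, rfl⟩)
  classical
  exact Module.finite_def.2 ⟨s.image (fun a : C.A (X.prod X) => π a) , by
    rw [Finset.coe_image]; exact key⟩

/-- The algebra acts on the cohomology of `X`. -/
theorem exists_actX (hX : X.dim = n) (hB : LefschetzType T X) :
    ∃ A : Act (E H X) (T.coh X hX), A.ρ = ρ0 H X := by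
  obtain ⟨L, hL⟩ := (lef (T.coh X hX)).exists_lift (ρ0 H X) ρ0_inj
    (fun m => exists_E (alg_dg T hX hB m).alg)
    (exists_E (by
      have h := alg_om T (X := X) 1
      rw [pow_one] at h
      exact h.alg))
    (fun m => exists_E (alg_kap T hX hB m))
  obtain ⟨c, hc⟩ := exists_E (H := H) (X := X) (b := mu (T.coh X hX) (T.coh X hX).c)
    (IsAlgD.mul (H := H) (T.c₁_deg X)).alg
  refine ⟨{ ρ := ρ0 H X, inj := ρ0_inj, typ_mem := fun a => ?_, L := L, hL := hL,
            c := c, hc := hc, adj := fun a => ?_ }, rfl⟩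
  · exact (ρ0_alg a).typeOp T (hX := hX) (hY := hX)
  · obtain ⟨b, hb, h⟩ := alg_adj T hX (ρ0_alg a)
    obtain ⟨e, rfl⟩ := exists_E hb
    exact ⟨e, h⟩

end Pool.Agent.E8helper40.OR
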