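import Pool.Agent.TH133.Defs

/-!
# Hodge theory of a Weil cohomology theory; the data of a derived equivalence
-/

set_option autoImplicit false

open CategoryTheory AlgebraicGeometry
open scoped ComplexConjugate

namespace Pool.Agent.E8helper40.OR

open Pool.Agent.H914 Pool.Agent.H914.VarClass Pool.Agent.H914.VarClass.Obj Pool.Agent.W492.BB
  Pool.Agent.W550.Corr

variable {k : Type} [Field k] {𝒱 : VarClass k} {C : TheoryData.{0, 0, 0} 𝒱 ℚ}

section basic

variable (H : WeilTheoryData.{0, 0, 0} C ℂ)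

/-- The class of a cycle. -/
noncomputable def cyc {X : 𝒱.Obj} (z : C.A X) : H.A X := H.cl z

/-- The action of a correspondence on the cohomology. -/
noncomputable def cact {X Y : 𝒱.Obj} (Γ : C.A (X.prod Y)) (a : H.A X) : H.A Y :=
  H.act (cyc H Γ) a

/-- The orientation. -/
noncomputable def trc {X : 𝒱.Obj} (a : H.A X) : ℂ := H.tr X a

/-- The multiples of a class. -/
noncomputable def sc {X : 𝒱.Obj} (c : ℂ) (a : H.A X) : H.A X := c • a

end basic

/-- The data of a Hodge theory for the Weil cohomology theory `H` with complex coefficients. For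
smooth projective varieties over a subfield `k` of the complex numbers, `H(X)` is the complex
cohomology of `X(ℂ)`.

* `hd X (p, q)` is the space of the classes of type `(p, q)`; the cohomology ring is the direct sum
  of these spaces and is graded by them;
* `bar` is the complex conjugation;
* `hyp X` is the class of a hyperplane section of `X`;
* `c₁ X` is the first Chern class of `X`. -/
structure HodgeData (H : WeilTheoryData.{0, 0, 0} C ℂ) where
  hd : ∀ X : 𝒱.Obj, ℤ × ℤ → Submodule ℂ (H.A X)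
  gr : ∀ X : 𝒱.Obj, GradedRing (hd X)
  bar : ∀ X : 𝒱.Obj, H.A X → H.A X
  hyp : ∀ X : 𝒱.Obj, C.A X
  c₁ : ∀ X : 𝒱.Obj, C.A X

variable {H : WeilTheoryData.{0, 0, 0} C ℂ}

namespace HodgeData

variable (T : HodgeData H)

/-- The class `x` is of type `(p, q)`. -/
def Ty {X : 𝒱.Obj} (p q : ℤ) (x : H.A X) : Prop := x ∈ T.hd X (p, q)

/-- The Lefschetz operator: the product with the `m`-th power of the class of a hyperplane
section. -/
noncomputable def lef {X : 𝒱.Obj} (m : ℕ) (x : H.A X) : H.A X := cyc H (T.hyp X) ^ m * x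

/-- The classes of type `(p, q)` are contained in `H^(p+q)(X)`, and they are zero if `p` or `q` is
negative; the cohomology ring is graded commutative and finite dimensional; pull-backs,
push-forwards and orientations are compatible with types; the class of a cycle of codimension `i`
is of type `(i, i)`, and the cycles modulo homological equivalence form a finite dimensional space
over the rational numbers. -/
structure IsHodge : Prop where
  deg : ∀ (X : 𝒱.Obj) (p q : ℤ) (x : H.A X), T.Ty p q x → H.Deg (p + q) x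
  van : ∀ (X : 𝒱.Obj) (p q : ℤ) (x : H.A X), T.Ty p q x → (p < 0 ∨ q < 0) → x = 0
  comm : ∀ (X : 𝒱.Obj) (p q p' q' : ℤ) (x y : H.A X), T.Ty p q x → T.Ty p' q' y →
    H.mul x y = sc H ((-1) ^ ((p + q) * (p' + q'))) (H.mul y x)
  fin : ∀ X : 𝒱.Obj, FiniteDimensional ℂ (H.A X)
  pull : ∀ {X Y : 𝒱.Obj} (f : X ⟶ Y) (p q : ℤ) (b : H.A Y), T.Ty p q b → T.Ty p q (H.up f b)
  push : ∀ {X Y : 𝒱.Obj} (f : X ⟶ Y) (p q : ℤ) (a : H.A X), T.Ty p q a →
    T.Ty (p + (Y.dim - X.dim)) (q + (Y.dim - X.dim)) (H.down f a)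
  tr : ∀ (X : 𝒱.Obj) (p q : ℤ) (x : H.A X), T.Ty p q x → ¬ (p = X.dim ∧ q = X.dim) → trc H x = 0
  cl : ∀ (X : 𝒱.Obj) (i : ℤ) (z : C.A X), C.Deg i z → T.Ty i i (cyc H z)
  cycles : ∀ X : 𝒱.Obj, ∃ s : Finset (C.A X), ∀ z : C.A X, ∃ q : C.A X → ℚ,
    cyc H z = cyc H (∑ a ∈ s, q a • a)

/-- Complex conjugation is a semilinear involution which is a ring homomorphism and exchanges the
types `(p, q)` and `(q, p)`; pull-backs, push-forwards, orientations and the classes of cycles are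
real. -/
structure IsReal : Prop where
  add : ∀ (X : 𝒱.Obj) (x y : H.A X), T.bar X (x + y) = T.bar X x + T.bar X y
  smul : ∀ (X : 𝒱.Obj) (c : ℂ) (x : H.A X), T.bar X (sc H c x) = sc H (conj c) (T.bar X x)
  bar : ∀ (X : 𝒱.Obj) (x : H.A X), T.bar X (T.bar X x) = x
  mul : ∀ (X : 𝒱.Obj) (x y : H.A X), T.bar X (H.mul x y) = H.mul (T.bar X x) (T.bar X y)
  mem : ∀ (X : 𝒱.Obj) (p q : ℤ) (x : H.A X), T.Ty p q x → T.Ty q p (T.bar X x)
  pull : ∀ {X Y : 𝒱.Obj} (f : X ⟶ Y) (b : H.A Y), T.bar X (H.up f b) = H.up f (T.bar Y b)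
  push : ∀ {X Y : 𝒱.Obj} (f : X ⟶ Y) (a : H.A X), T.bar Y (H.down f a) = H.down f (T.bar X a)
  tr : ∀ (X : 𝒱.Obj) (x : H.A X), trc H (T.bar X x) = conj (trc H x)
  cl : ∀ (X : 𝒱.Obj) (z : C.A X), T.bar X (cyc H z) = cyc H z

/-- The hard Lefschetz theorem and the Hodge-Riemann bilinear relations for the class of a
hyperplane section (which is a divisor class). -/
structure IsPolarized : Prop where
  hyp_deg : ∀ X : 𝒱.Obj, C.Deg 1 (T.hyp X)
  c₁_deg : ∀ X : 𝒱.Obj, C.Deg 1 (T.c₁ X)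
  inj : ∀ (X : 𝒱.Obj) (p q : ℤ) (m : ℕ), p + q + m = X.dim → ∀ x : H.A X, T.Ty p q x →
    T.lef m x = 0 → x = 0
  surj : ∀ (X : 𝒱.Obj) (p q : ℤ) (m : ℕ), p + q + m = X.dim → ∀ y : H.A X,
    T.Ty (p + m) (q + m) y → ∃ x : H.A X, T.Ty p q x ∧ T.lef m x = y
  riemann : ∀ (X : 𝒱.Obj) (p q : ℤ) (m : ℕ), p + q + m = X.dim → ∀ x : H.A X, T.Ty p q x →
    x ≠ 0 → T.lef (m + 1) x = 0 →
    ∃ r : ℝ, 0 < r ∧ Complex.I ^ (p - q) * (-1 : ℂ) ^ ((p + q) * (p + q - 1) / 2) *
      trc H (T.lef m (H.mul x (T.bar X x))) = (r : ℂ)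

/-- `T` is a Hodge theory for `H`. -/
structure IsTheory : Prop where
  isHodge : T.IsHodge
  isReal : T.IsReal
  isPolarized : T.IsPolarized

/-- The class `exp (c₁ / 2)`. -/
noncomputable def expc (X : 𝒱.Obj) : H.A X :=
  ∑ m ∈ Finset.range (X.dim + 1), sc H (1 / (2 ^ m * (m.factorial : ℂ))) (cyc H (T.c₁ X) ^ m)

/-- `D` is the operator `x ↦ x^∨` of the Mukai pairing: multiplication by `i^{p+q}` on the classes
of type `(p, q)`. -/
def IsDual (X : 𝒱.Obj) (D : H.A X → H.A X) : Prop :=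
  (∀ x y : H.A X, D (x + y) = D x + D y) ∧
    ∀ (p q : ℤ) (x : H.A X), T.Ty p q x → D x = sc H (Complex.I ^ (p + q)) x

/-- The Mukai pairing `∫ exp (c₁ / 2) x^∨ y`, where `D` is the operator `x ↦ x^∨`. -/
noncomputable def pairing (X : 𝒱.Obj) (D : H.A X → H.A X) (x y : H.A X) : ℂ :=
  trc H (H.mul (T.expc X) (H.mul (D x) y))

/-- The cohomological properties of a derived equivalence. `v` and `w` are the Mukai vectors
`ch(E) √td(X × Y)` of the kernel of an equivalence `D(X) → D(Y)` and of its inverse (mixed classes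
in the Chow groups with rational coefficients): they are inverse to each other as correspondences,
and the action of `v` on cohomology is an isometry for the Mukai pairings
`∫ exp (c₁ / 2) x^∨ y`. -/
structure MukaiPair (X Y : 𝒱.Obj) (v : C.A (X.prod Y)) (w : C.A (Y.prod X)) : Prop where
  left : C.comp v w = dg C X
  right : C.comp w v = dg C Y
  isometry : ∀ (D : H.A X → H.A X) (D' : H.A Y → H.A Y), T.IsDual X D → T.IsDual Y D' →
    ∀ a b : H.A X, T.pairing Y D' (cact H v a) (cact H v b) = T.pairing X D a b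

/-- The standard conjecture of Lefschetz type for `X`: the inverses of the Lefschetz isomorphisms
`H^(n-m)(X) → H^(n+m)(X)`, `n = dim X`, are induced by algebraic correspondences. -/
def LefschetzType (X : 𝒱.Obj) : Prop :=
  ∀ m : ℕ, m ≤ X.dim → ∃ θ : C.A (X.prod X), C.Deg (X.dim - m) θ ∧ ∀ a : H.A X,
    H.Deg (X.dim - m) a → cact H θ (T.lef m a) = a

end HodgeData

variable (H)

/-- `H^j(X)` and `H^j(Y)` are isomorphic by algebraic correspondences of degree zero. -/
def SameIn (X Y : 𝒱.Obj) (j : ℕ) : Prop :=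
  ∃ (α : C.A (X.prod Y)) (β : C.A (Y.prod X)), C.Deg X.dim α ∧ C.Deg Y.dim β ∧
    (∀ a : H.A X, H.Deg j a → cact H β (cact H α a) = a) ∧
    (∀ b : H.A Y, H.Deg j b → cact H α (cact H β b) = b)

/-- The homological motives of `X` and `Y` are isomorphic. -/
def HomIso (X Y : 𝒱.Obj) : Prop :=
  ∃ (f : C.A (X.prod Y)) (g : C.A (Y.prod X)), C.Deg X.dim f ∧ C.Deg Y.dim g ∧
    (∀ a : H.A X, cact H g (cact H f a) = a) ∧ (∀ b : H.A Y, cact H f (cact H g b) = b)

variable {H}

/-- The Chow motives of `X` and `Y` are isomorphic. -/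
def ChowIso (C : TheoryData.{0, 0, 0} 𝒱 ℚ) (X Y : 𝒱.Obj) : Prop :=
  ∃ (f : C.A (X.prod Y)) (g : C.A (Y.prod X)), C.Deg X.dim f ∧ C.Deg Y.dim g ∧
    C.comp f g = dg C X ∧ C.comp g f = dg C Y

end Pool.Agent.E8helper40.OR
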