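import Pool.Agent.E8helper40.OR.Chow
import Pool.Agent.E8helper40.OR.Hodge

/-!
# Comparison of the definitions
-/

set_option autoImplicit false

open CategoryTheory AlgebraicGeometry
open scoped ComplexConjugate

namespace Pool.Agent.E8helper40.OR

open Pool.Agent.H914 Pool.Agent.H914.VarClass Pool.Agent.H914.VarClass.Obj Pool.Agent.W492.BB
  Pool.Agent.W550.Corr Pool.Agent.TH133

variable {k : Type} [Field k] {𝒱 : VarClass k} {C : TheoryData.{0, 0, 0} 𝒱 ℚ}
  {H : WeilTheoryData.{0, 0, 0} C ℂ}

/-- The Hodge theory with its axioms. -/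
noncomputable def HodgeData.th (T : HodgeData H) (h : T.IsTheory) : HodgeTheory H where
  hd := T.hd
  gr := T.gr
  hd_le X p q := fun x hx => h.isHodge.deg X p q x hx
  van X p q hpq := by
    rw [eq_bot_iff]
    intro x hx
    rw [Submodule.mem_bot]
    exact h.isHodge.van X p q x hx hpq
  comm := h.isHodge.comm
  fin := h.isHodge.fin
  bar X := { toFun := T.bar X, map_add' := h.isReal.add X, map_smul' := h.isReal.smul X }
  bar_bar := h.isReal.bar
  bar_mul := h.isReal.mul
  bar_mem := h.isReal.mem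
  pull_mem := h.isHodge.pull
  pull_bar := h.isReal.pull
  push_mem := h.isHodge.push
  push_bar := h.isReal.push
  tr_van := h.isHodge.tr
  tr_bar := h.isReal.tr
  cl_mem := h.isHodge.cl
  cl_bar := h.isReal.cl
  cycles_fin := h.isHodge.cycles
  hyp := T.hyp
  hyp_deg := h.isPolarized.hyp_deg
  hl_inj := h.isPolarized.inj
  hl_surj := h.isPolarized.surj
  hr := h.isPolarized.riemann
  c₁ := T.c₁
  c₁_deg := h.isPolarized.c₁_deg

theorem HodgeData.MukaiPair.kernel [IsWeilProj H] {T : HodgeData H} (hT : T.IsTheory)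
    {X Y : 𝒱.Obj} {v : C.A (X.prod Y)} {w : C.A (Y.prod X)} (h : T.MukaiPair X Y v w) {n : ℕ}
    (hX : X.dim = n) (hY : Y.dim = n) : MukaiKernel (T.th hT) X Y hX hY v w where
  left := h.left
  right := h.right
  isometry a b := by
    have h1 := h.isometry ((T.th hT).coh X hX).dual ((T.th hT).coh Y hY).dual
      ⟨fun x y => map_add _ _ _, fun p q x hx => ((T.th hT).coh X hX).dual_of hx⟩
      ⟨fun x y => map_add _ _ _, fun p q x hx => ((T.th hT).coh Y hY).dual_of hx⟩ a b
    unfold HodgeData.pairing HodgeData.expc at h1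
    rw [hX, hY] at h1
    exact h1

end Pool.Agent.E8helper40.OR
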